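import Pool.Agent.H41N.NL.Local
import Pool.Agent.R210.Per0

/-!
The inequality on the torus.
-/

open MeasureTheory Set Filter Topology
open H459R3.NS
open scoped NNReal ContDiff

set_option autoImplicit false

namespace Pool.Agent.H41N.NL

variable {c : V} {d : ℝ} {L : V → V} {w : V → V → ℝ} {A B : V → ℝ} {J : V → V}

/-- averages of averages -/
theorem avg {F χ : V → ℝ} (hF : Continuous F) (hp : Per F) (hχ : Continuous χ)
    (hχc : HasCompactSupport χ) :
    IntegrableOn (fun a => ∫ x, χ (x - a) * F x) cube ∧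
      ∫ a in cube, ∫ x, χ (x - a) * F x = (∫ y, χ y) * ∫ x in cube, F x := by
  set K : Set V := tsupport χ with hK
  have hKc : IsCompact K := hχc
  have e0 : ∀ a : V, ∫ x, χ (x - a) * F x = ∫ y in K, χ y * F (a + y) := by
    intro a
    have h1 : ∫ x, χ (x - a) * F x = ∫ y, χ y * F (a + y) := by
      rw [← integral_add_right_eq_self (fun x => χ (x - a) * F x) a]
      congr 1
      funext y
      rw [add_sub_cancel_right, add_comm y a]
    rw [h1, ← integral_indicator hKc.isClosed.measurableSet]
    congr 1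
    funext y
    by_cases hy : y ∈ K
    · rw [indicator_of_mem hy]
    · rw [indicator_of_notMem hy, image_eq_zero_of_notMem_tsupport hy, zero_mul]
  have e1 : ∫ y, χ y = ∫ y in K, χ y := by
    rw [← integral_indicator hKc.isClosed.measurableSet]
    congr 1
    funext y
    by_cases hy : y ∈ K
    · rw [indicator_of_mem hy]
    · rw [indicator_of_notMem hy, image_eq_zero_of_notMem_tsupport hy]
  have hint : Integrable (Function.uncurry fun a y : V => χ y * F (a + y))
      ((volume.restrict cube).prod (volume.restrict K)) := by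
    have hc : Continuous (Function.uncurry fun a y : V => χ y * F (a + y)) := by
      unfold Function.uncurry
      exact (hχ.comp continuous_snd).mul (hF.comp (continuous_fst.add continuous_snd))
    rw [Measure.prod_restrict]
    exact hc.continuousOn.integrableOn_compact ((isCompact_Icc : IsCompact cube).prod hKc)
  simp_rw [e0]
  refine ⟨hint.integral_prod_left, ?_⟩
  rw [integral_integral_swap hint, e1]
  have e : ∀ y, ∫ a in cube, χ y * F (a + y) = χ y * ∫ x in cube, F x := by
    intro y
    rw [integral_const_mul, Pool.Agent.R210.int_shift hp]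
  simp_rw [e]
  rw [integral_mul_const]

theorem per_sum {F : Fin 3 → V → ℝ} (h : ∀ j, Per (F j)) : Per fun x => ∑ j, F j x :=
  fun i x => Finset.sum_congr rfl fun j _ => h j i x

theorem pd_shift (ψ : V → ℝ) (j : Fin 3) (a x : V) :
    pd j (fun y => ψ (y - a)) x = pd j ψ (x - a) := by
  unfold pd
  rw [fderiv_comp_sub]

theorem exists_bump (hd : 0 < d) : ∃ ψ : V → ℝ, ContDiff ℝ ∞ ψ ∧ (∀ x, 0 ≤ ψ x) ∧
    HasCompactSupport ψ ∧ tsupport ψ ⊆ Open 0 d ∧ ∫ x, ψ x = 1 := by
  let f : ContDiffBump (0 : V) := ⟨d / 8, d / 4, by positivity, by linarith⟩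
  refine ⟨f.normed volume, f.contDiff_normed, f.nonneg_normed, f.hasCompactSupport_normed, ?_,
    f.integral_normed⟩
  rw [f.tsupport_normed_eq]
  intro x hx i
  rw [mem_closedBall_zero_iff] at hx
  have h1 : |x i| ≤ ‖x‖ := norm_le_pi_norm x i
  have h2 : ‖x‖ ≤ d / 4 := hx
  rw [Pi.zero_apply, sub_zero]
  linarith

theorem per_nr {J : V → V} (h : Per J) : Per fun x => nr (J x) := fun i x => by
  simp only
  rw [h i x]

theorem continuous_nr {J : V → V} (h : ∀ j, Continuous fun x => J x j) :
    Continuous fun x => nr (J x) := by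
  unfold nr
  exact (continuous_finsetSum _ fun j _ => (h j).pow 2).sqrt

theorem exists_const (hd : 0 < d) : ∃ C : ℝ, 0 ≤ C ∧ ∀ (v : Fin 3 → V → ℝ) (L : V → V)
    (A B : V → ℝ) (w : V → V → ℝ), (∀ i, SP (v i)) → (∀ x, ∑ i, pd i (v i) x = 0) →
      Continuous L → Per L → Continuous A → Per A → Per B →
      IsCost A B (fun x j => -lap (v j) x) w → Loops d L w →
      -∫ x in cube, ∑ j, L x j * lap (v j) x ≤
        (∫ x in cube, A x * nr (fun j => lap (v j) x))
        + C * ∑ j, ∑ k, ∫ x in cube, |vm v k j x| * (|L x k| + B x) := by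
  obtain ⟨ψ, hψ, hψ0, hψc, hsub, hψ1⟩ := exists_bump hd
  refine ⟨∑ j, ∫ x, |pd j ψ x|, Finset.sum_nonneg fun _ _ => integral_nonneg fun _ => abs_nonneg _,
    fun v L A B w hv hdiv hL hLp hA hAp hBp hw h => ?_⟩
  have hB0 : ∀ x, 0 ≤ B x := fun x => by
    have h1 := hw.nonneg x (Pi.single 0 1)
    have h2 := hw.le x (Pi.single 0 1)
    rw [nr_single, mul_one] at h2
    linarith
  -- the three periodic functions
  have hcL : ∀ j, Continuous fun x => L x j := fun j => (continuous_apply j).comp hL
  set J : V → V := fun x j => -lap (v j) x with hJ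
  have hcJ : ∀ j, Continuous fun x => J x j := fun j => (hv j).lap.cont.neg
  have pJ : Per J := fun i x => by
    funext j
    simp only [hJ]
    rw [(hv j).lap.per i x]
  set D : V → ℝ := fun x => ∑ j, L x j * J x j with hD
  set E : V → ℝ := fun x => A x * nr (J x) with hE
  set M : Fin 3 → Fin 3 → V → ℝ := fun j k x => |vm v k j x| * (|L x k| + B x) with hM
  have cD : Continuous D := continuous_finsetSum _ fun j _ => (hcL j).mul (hcJ j)
  have pD : Per D := per_sum fun j i x => by rw [hLp i x, pJ i x]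
  have cE : Continuous E := hA.mul (continuous_nr hcJ)
  have pE : Per E := fun i x => by
    simp only [hE]
    rw [hAp i x, pJ i x]
  have cM : ∀ j k, Continuous (M j k) := fun j k =>
    (sp_vm hv k j).cont.abs.mul ((hcL k).abs.add hw.contB)
  have pM : ∀ j k, Per (M j k) := fun j k i x => by
    simp only [hM]
    rw [(sp_vm hv k j).per i x, hLp i x, hBp i x]
  have hψj : ∀ j, Continuous fun x => |pd j ψ x| := fun j => (contDiff_pd hψ j).continuous.abs
  have hψjc : ∀ j, HasCompactSupport fun x => |pd j ψ x| := fun j =>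
    (hasCompactSupport_pd hψc j).comp_left (g := fun y : ℝ => |y|) abs_zero
  obtain ⟨iD, aD⟩ := avg cD pD hψ.continuous hψc
  obtain ⟨iE, aE⟩ := avg cE pE hψ.continuous hψc
  have hMavg := fun j k => avg (cM j k) (pM j k) (hψj j) (hψjc j)
  -- the inequality in the cube with centre `a`
  have key : ∀ a : V, ∫ x, ψ (x - a) * D x ≤ (∫ x, ψ (x - a) * E x)
      + ∑ j, ∑ k, ∫ x, |pd j ψ (x - a)| * M j k x := by
    intro a
    have hs : tsupport (fun y => ψ (y - a)) ⊆ Open a d := by
      intro x hx
      have h1 : x - a ∈ tsupport ψ :=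
        tsupport_comp_subset_preimage ψ (continuous_id.sub continuous_const) hx
      intro i
      have h2 := hsub h1 i
      simpa using h2
    have hl := local_le hv hdiv hd hL hA (fun x j => rfl) hw (h a) (ψ := fun y => ψ (y - a))
      (hψ.comp (contDiff_id.sub contDiff_const)) (fun x => hψ0 _)
      (hψc.comp_homeomorph (Homeomorph.subRight a)) hs
    simp_rw [pd_shift] at hl
    exact hl
  have iM : IntegrableOn (fun a => ∑ j, ∑ k, ∫ x, |pd j ψ (x - a)| * M j k x) cube :=
    integrable_finsetSum _ fun j _ => integrable_finsetSum _ fun k _ => (hMavg j k).1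
  rw [hψ1, one_mul] at aD aE
  have h2 : ∫ a in cube, ∫ x, ψ (x - a) * D x ≤ ∫ a in cube, ((∫ x, ψ (x - a) * E x)
      + ∑ j, ∑ k, ∫ x, |pd j ψ (x - a)| * M j k x) :=
    integral_mono iD (iE.add iM) fun a => key a
  rw [aD, integral_add iE iM, aE, integral_finsetSum _ fun j _ => integrable_finsetSum _
    fun k _ => (hMavg j k).1] at h2
  have h3 : ∀ j, ∫ a in cube, ∑ k, ∫ x, |pd j ψ (x - a)| * M j k x
      = ∑ k, (∫ x, |pd j ψ x|) * ∫ x in cube, M j k x := by
    intro j
    rw [integral_finsetSum _ fun k _ => (hMavg j k).1]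
    exact Finset.sum_congr rfl fun k _ => (hMavg j k).2
  simp_rw [h3] at h2
  have e1 : -∫ x in cube, ∑ j, L x j * lap (v j) x = ∫ x in cube, D x := by
    rw [← integral_neg]
    congr 1
    funext x
    simp only [hD, hJ]
    rw [← Finset.sum_neg_distrib]
    exact Finset.sum_congr rfl fun j _ => by ring
  have e2 : ∀ x, nr (fun j => lap (v j) x) = nr (J x) := by
    intro x
    have : J x = -fun j => lap (v j) x := rfl
    rw [this, nr_neg]
  simp_rw [e2]
  rw [e1]
  refine h2.trans (add_le_add le_rfl ?_)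
  rw [Finset.mul_sum]
  refine Finset.sum_le_sum fun j _ => ?_
  rw [← Finset.mul_sum]
  refine mul_le_mul_of_nonneg_right ?_ (Finset.sum_nonneg fun k _ =>
    integral_nonneg fun x => mul_nonneg (abs_nonneg _) (add_nonneg (abs_nonneg _) (hB0 x)))
  exact Finset.single_le_sum (f := fun j => ∫ x, |pd j ψ x|)
    (fun _ _ => integral_nonneg fun _ => abs_nonneg _) (Finset.mem_univ j)

end Pool.Agent.H41N.NL
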