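import Pool.Agent.H41N.NL.Est2

/-!
The bound of the production of enstrophy: assembly.
-/

open MeasureTheory Set Filter Topology
open H459R3.NS Pool.Agent.W268.NS
open scoped NNReal ENNReal ContDiff

set_option autoImplicit false

namespace Pool.Agent.H41N.NL

/-- `((v - b) × curl v)_i = ∑ⱼ (v_j - b_j) (∂_i v_j - ∂_j v_i)` -/
noncomputable def Lf (v b : V → V) (x : V) : V := fun i =>
  ∑ j, (v x j - b x j) * vm (fun i y => v y i) i j x

/-- the cost per length in the direction of `curl curl v` -/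
noncomputable def Af (κ ν : ℝ) (f g : V → ℝ) (v : V → V) (x : V) : ℝ :=
  f x * gn v x + g x + κ * ν * nr (lapv v x)

/-- the additional cost of the other directions -/
noncomputable def Mf (K : ℝ) (v b : V → V) (x : V) : ℝ := K * (nr (v x) + nr (b x)) * gn v x

/-- the cost -/
noncomputable def wf (K κ ν : ℝ) (f g : V → ℝ) (v b : V → V) : V → V → ℝ :=
  wgt (Af κ ν f g v) (Mf K v b) fun x j => -lap (fun y => v y j) x

theorem abs_Lf_le (v b : V → V) (x : V) (k : Fin 3) :
    |Lf v b x k| ≤ 6 * ((nr (v x) + nr (b x)) * gn v x) := by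
  unfold Lf
  have h1 : ∀ j, |(v x j - b x j) * vm (fun i y => v y i) k j x|
      ≤ 2 * ((nr (v x) + nr (b x)) * gn v x) := by
    intro j
    rw [abs_mul]
    have h2 : |v x j - b x j| ≤ nr (v x) + nr (b x) :=
      (abs_sub _ _).trans (add_le_add (abs_le_nr _ _) (abs_le_nr _ _))
    calc |v x j - b x j| * |vm (fun i y => v y i) k j x|
        ≤ (nr (v x) + nr (b x)) * (2 * gn v x) :=
          mul_le_mul h2 (abs_vm_le v k j x) (abs_nonneg _) (add_nonneg (nr_nonneg _) (nr_nonneg _))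
      _ = _ := by ring
  refine (abs_sum3 h1).trans (le_of_eq (by ring))

theorem per_gn {v : V → V} (hv : ∀ i, SP (fun y => v y i)) : Per (gn v) := fun i x => by
  unfold gn gradSq
  congr 1
  refine Finset.sum_congr rfl fun a _ => Finset.sum_congr rfl fun b _ => ?_
  exact congrArg (fun y : ℝ => y ^ 2) ((sp_grad hv a b).per i x)

theorem prod_bound {p s : ℝ≥0∞} (hp : 3 < p) (hs : 3 / 2 < s) {K κ ν d : ℝ} (hK : 0 ≤ K)
    (hκ : 0 ≤ κ) (hν : 0 ≤ ν) (hd : 0 < d) : ∃ C : ℝ, 0 ≤ C ∧
    ∀ (v b : V → V) (f g : V → ℝ) (N β γ ρ G H : ℝ), GH2 (fun i x => v x i) G H →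
      (∀ x, ∑ i, pd i (fun y => v y i) x = 0) → SPV b →
      Continuous f → Per f → (∀ x, 0 ≤ f x) → Continuous g → Per g → (∀ x, 0 ≤ g x) →
      0 ≤ N → 0 ≤ β → 0 ≤ γ → 0 ≤ ρ → eLpNorm f p (volume.restrict cube) ≤ ENNReal.ofReal β →
      (∀ i j, eLpNorm (pd i (fun y => b y j)) s (volume.restrict cube) ≤ ENNReal.ofReal γ) →
      nrm g ≤ ρ →
      eLpNorm (fun x => nr (v x) + nr (b x)) 2 (volume.restrict cube) ≤ ENNReal.ofReal N →
      Loops d (Lf v b) (wf K κ ν f g v b) →
      -cub (fun i x => v x i) ≤ κ * ν * H ^ 2 + ρ * H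
        + C * (β * (G ^ (1 - th p) * H ^ th p * H)) + C * (β * (G ^ (2 - th p) * H ^ th p))
        + C * (N * (G ^ (2 - th 2) * H ^ th 2)) + C * (γ * (G ^ (2 - th s) * H ^ th s))
        + C * (G * H) + C * (G * ρ) := by
  obtain ⟨C1, hC10, hC1⟩ := exists_const hd
  obtain ⟨C2, hC20, hC2⟩ := int_fal hp
  obtain ⟨C3, hC30, hC3⟩ := int_pot (three_half_lt hp)
  obtain ⟨C4, hC40, hC4⟩ := int_pot (p := 2) (by
    rw [ENNReal.div_lt_iff (Or.inl (by norm_num)) (Or.inl (by norm_num))]
    norm_num)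
  obtain ⟨C5, hC50, hC5⟩ := int_pot hs
  set D : ℝ := C1 * (9 * (12 + 4 * K + 2 + 2 + 2 * (κ * ν))) with hD
  have hD0 : 0 ≤ D := by positivity
  refine ⟨C2 + D * (1 + C3 + C4) + 95 * (9 * C5), by positivity, ?_⟩
  intro v b f g N β γ ρ G H ha hdiv hb hf hfp hf0 hg hgp hg0 hN hβ hγ hρ hfβ hbγ hgρ hQN hloop
  have hv : ∀ i, SP (fun y => v y i) := ha.sp
  have hbs : ∀ i, SP (fun y => b y i) := fun i => hb.sp i
  have hG0 := ha.g0
  have hH0 := ha.h0
  -- continuity
  have cv : Continuous v := continuous_pi fun i => (hv i).cont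
  have cb : Continuous b := hb.1.continuous
  have cQ : Continuous fun x => nr (v x) + nr (b x) :=
    (continuous_nr fun i => (hv i).cont).add (continuous_nr fun i => (hbs i).cont)
  have ca := cont_gn hv
  have cl := cont_nrlap hv
  have cgs := cont_gradSq hv
  have cA : Continuous (Af κ ν f g v) :=
    ((hf.mul ca).add hg).add (continuous_const.mul cl)
  have cM : Continuous (Mf K v b) := (continuous_const.mul cQ).mul ca
  have cJ : Continuous fun (x : V) (j : Fin 3) => -lap (fun y => v y j) x :=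
    continuous_pi fun j => (hv j).lap.cont.neg
  have cL : Continuous (Lf v b) := by
    unfold Lf
    exact continuous_pi fun i => continuous_finsetSum _ fun j _ =>
      ((hv j).cont.sub (hbs j).cont).mul (sp_vm hv i j).cont
  -- periodicity
  have pv : Per v := fun i x => by
    funext j
    exact (hv j).per i x
  have pl : Per (lapv v) := fun i x => by
    funext j
    exact (hv j).lap.per i x
  have pA : Per (Af κ ν f g v) := fun i x => by
    unfold Af
    rw [hfp i x, hgp i x, per_gn hv i x, pl i x]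
  have pM : Per (Mf K v b) := fun i x => by
    unfold Mf
    rw [pv i x, hb.2 i x, per_gn hv i x]
  have pL : Per (Lf v b) := fun i x => by
    unfold Lf
    funext k
    refine Finset.sum_congr rfl fun j _ => ?_
    rw [pv i x, hb.2 i x, (sp_vm hv k j).per i x]
  have hA0 : ∀ x, 0 ≤ Af κ ν f g v x := fun x =>
    add_nonneg (add_nonneg (mul_nonneg (hf0 x) (gn_nonneg v x)) (hg0 x))
      (mul_nonneg (mul_nonneg hκ hν) (nr_nonneg _))
  have hM0 : ∀ x, 0 ≤ Mf K v b x := fun x =>
    mul_nonneg (mul_nonneg hK (add_nonneg (nr_nonneg _) (nr_nonneg _))) (gn_nonneg v x)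
  have hcost := isCost cA cM cJ hA0 hM0
  -- the first term
  have h1 := hC1 (fun i y => v y i) (Lf v b) (Af κ ν f g v)
    (fun x => Af κ ν f g v x + 2 * Mf K v b x) (wf K κ ν f g v b) hv hdiv cL pL cA pA
    (fun i x => by
      show Af κ ν f g v (x + Pi.single i 1) + 2 * Mf K v b (x + Pi.single i 1) = _
      rw [pA i x, pM i x]) hcost hloop
  -- the production
  have e1 := cub_lorentz hv hdiv
  have e2 := transport hv hdiv hbs
  have e3 : ∑ i, ∫ x in cube, lap (fun y => v y i) x
        * lorentz (fun i y => v y i) (fun i y => v y i) i x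
      = (∫ x in cube, ∑ j, Lf v b x j * lap (fun y => v y j) x)
        + ∑ i, ∫ x in cube, lap (fun y => v y i) x
          * lorentz (fun i y => v y i) (fun i y => b y i) i x := by
    have i1 : ∀ j, IntegrableOn (fun x => Lf v b x j * lap (fun y => v y j) x) cube := fun j =>
      integrableOn_cube (((continuous_apply j).comp cL).mul (hv j).lap.cont)
    have i2 : ∀ i, IntegrableOn (fun x => lap (fun y => v y i) x
        * lorentz (fun i y => v y i) (fun i y => b y i) i x) cube := fun i =>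
      ((hv i).lap.mul (sp_lorentz hv hbs i)).int
    rw [integral_finsetSum _ fun j _ => i1 j, ← Finset.sum_add_distrib]
    refine Finset.sum_congr rfl fun i _ => ?_
    rw [← integral_add (i1 i) (i2 i)]
    congr 1
    funext x
    unfold Lf lorentz
    rw [Finset.sum_mul, Finset.mul_sum, Finset.mul_sum, ← Finset.sum_add_distrib]
    exact Finset.sum_congr rfl fun j _ => by ring
  rw [e1, e3, e2]
  -- the integral over the direction of `J`
  have j1 : IntegrableOn (fun x => f x * gn v x * nr (lapv v x)) cube :=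
    integrableOn_cube ((hf.mul ca).mul cl)
  have j2 : IntegrableOn (fun x => g x * nr (lapv v x)) cube := integrableOn_cube (hg.mul cl)
  have j3 : IntegrableOn (fun x => κ * ν * nr (lapv v x) ^ 2) cube :=
    integrableOn_cube (continuous_const.mul (cl.pow 2))
  have j12 : IntegrableOn (fun x => f x * gn v x * nr (lapv v x) + g x * nr (lapv v x)) cube :=
    j1.add j2
  have e4 : ∫ x in cube, Af κ ν f g v x * nr (fun j => lap (fun y => v y j) x)
      = (∫ x in cube, f x * gn v x * nr (lapv v x)) + (∫ x in cube, g x * nr (lapv v x))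
        + κ * ν * ∫ x in cube, nr (lapv v x) ^ 2 := by
    rw [← integral_const_mul, ← integral_add j1 j2, ← integral_add j12 j3]
    congr 1
    funext x
    have : nr (fun j => lap (fun y => v y j) x) = nr (lapv v x) := rfl
    rw [this]
    unfold Af
    ring
  have b1 := hC2 f v G H β hf hβ hfβ ha
  have b2 : ∫ x in cube, g x * nr (lapv v x) ≤ ρ * H :=
    ((le_abs_self _).trans (abs_int_mul_le hg cl)).trans
      (mul_le_mul hgρ (nrm_lapv hv ha) (nrm_nonneg _) hρ)
  have b3 : κ * ν * ∫ x in cube, nr (lapv v x) ^ 2 ≤ κ * ν * H ^ 2 :=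
    mul_le_mul_of_nonneg_left (int_lapv_sq hv ha) (mul_nonneg hκ hν)
  -- the terms of lower order
  set R : V → ℝ := fun x => (12 + 4 * K) * ((nr (v x) + nr (b x)) * gradSq v x)
    + 2 * (f x * gradSq v x) + 2 * (g x * gn v x) + 2 * (κ * ν) * (gn v x * nr (lapv v x)) with hR
  have k1 : IntegrableOn (fun x => (12 + 4 * K) * ((nr (v x) + nr (b x)) * gradSq v x)) cube :=
    integrableOn_cube (continuous_const.mul (cQ.mul cgs))
  have k2 : IntegrableOn (fun x => 2 * (f x * gradSq v x)) cube :=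
    integrableOn_cube (continuous_const.mul (hf.mul cgs))
  have k3 : IntegrableOn (fun x => 2 * (g x * gn v x)) cube :=
    integrableOn_cube (continuous_const.mul (hg.mul ca))
  have k4 : IntegrableOn (fun x => 2 * (κ * ν) * (gn v x * nr (lapv v x))) cube :=
    integrableOn_cube (continuous_const.mul (ca.mul cl))
  have k12 : IntegrableOn (fun x => (12 + 4 * K) * ((nr (v x) + nr (b x)) * gradSq v x)
      + 2 * (f x * gradSq v x)) cube := k1.add k2
  have k123 : IntegrableOn (fun x => (12 + 4 * K) * ((nr (v x) + nr (b x)) * gradSq v x)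
      + 2 * (f x * gradSq v x) + 2 * (g x * gn v x)) cube := k12.add k3
  have kR : IntegrableOn R cube := k123.add k4
  have e5 : ∫ x in cube, R x = (12 + 4 * K) * (∫ x in cube, (nr (v x) + nr (b x)) * gradSq v x)
      + 2 * (∫ x in cube, f x * gradSq v x) + 2 * (∫ x in cube, g x * gn v x)
      + 2 * (κ * ν) * ∫ x in cube, gn v x * nr (lapv v x) := by
    rw [hR, integral_add k123 k4, integral_add k12 k3, integral_add k1 k2, integral_const_mul,
      integral_const_mul, integral_const_mul, integral_const_mul]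
  have b4 := (hC4 (fun x => nr (v x) + nr (b x)) v G H N cQ.aestronglyMeasurable hN hQN ha).2
  have b5 := (hC3 f v G H β hf.aestronglyMeasurable hβ hfβ ha).2
  have b6 : ∫ x in cube, g x * gn v x ≤ G * ρ := by
    refine ((le_abs_self _).trans (abs_int_mul_le hg ca)).trans ?_
    rw [mul_comm G ρ]
    exact mul_le_mul hgρ (nrm_gn hv ha) (nrm_nonneg _) hρ
  have b7 : ∫ x in cube, gn v x * nr (lapv v x) ≤ G * H :=
    ((le_abs_self _).trans (abs_int_mul_le ca cl)).trans
      (mul_le_mul (nrm_gn hv ha) (nrm_lapv hv ha) (nrm_nonneg _) hG0)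
  have b8 : ∀ j k, ∫ x in cube, |vm (fun i y => v y i) k j x|
      * (|Lf v b x k| + (Af κ ν f g v x + 2 * Mf K v b x)) ≤ ∫ x in cube, R x := by
    intro j k
    refine integral_mono (integrableOn_cube ((sp_vm hv k j).cont.abs.mul
      ((((continuous_apply k).comp cL).abs).add (cA.add (continuous_const.mul cM))))) kR
      fun x => ?_
    have a1 := abs_vm_le v k j x
    have a2 := abs_Lf_le v b x k
    have a3 : |Lf v b x k| + (Af κ ν f g v x + 2 * Mf K v b x)
        ≤ 6 * ((nr (v x) + nr (b x)) * gn v x) + (Af κ ν f g v x + 2 * Mf K v b x) := by linarith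
    have a4 : 0 ≤ |Lf v b x k| + (Af κ ν f g v x + 2 * Mf K v b x) := by
      have := hA0 x
      have := hM0 x
      have := abs_nonneg (Lf v b x k)
      linarith
    have a5 := mul_le_mul a1 a3 a4 (mul_nonneg zero_le_two (gn_nonneg v x))
    refine a5.trans (le_of_eq ?_)
    simp only [hR]
    unfold Af Mf
    rw [← gn_sq]
    ring
  have b9 : ∑ j, ∑ k, ∫ x in cube, |vm (fun i y => v y i) k j x|
      * (|Lf v b x k| + (Af κ ν f g v x + 2 * Mf K v b x)) ≤ 9 * ∫ x in cube, R x := by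
    refine (Finset.sum_le_sum fun j _ => Finset.sum_le_sum fun k _ => b8 j k).trans (le_of_eq ?_)
    simp
    ring
  -- the transport term
  have b10 : -∫ x in cube, tdens (fun i y => v y i) (fun i y => b y i) x
      ≤ 95 * (9 * (C5 * (γ * (G ^ (2 - th s) * H ^ th s)))) := by
    have c1 : ∀ i j, Continuous fun x => |pd i (fun y => b y j) x| := fun i j =>
      ((hbs j).pd i).cont.abs
    have i1 : ∀ i j, IntegrableOn (fun x => |pd i (fun y => b y j) x| * gradSq v x) cube :=
      fun i j => integrableOn_cube ((c1 i j).mul cgs)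
    have h2 : ∀ i j, ∫ x in cube, |pd i (fun y => b y j) x| * gradSq v x
        ≤ C5 * (γ * (G ^ (2 - th s) * H ^ th s)) := by
      intro i j
      refine (hC5 (fun x => |pd i (fun y => b y j) x|) v G H γ (c1 i j).aestronglyMeasurable hγ
        ?_ ha).2
      have h3 : eLpNorm (fun x => |pd i (fun y => b y j) x|) s (volume.restrict cube)
          = eLpNorm (pd i (fun y => b y j)) s (volume.restrict cube) :=
        eLpNorm_norm (pd i (fun y => b y j))
      rw [h3]
      exact hbγ i j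
    have h4 : |∫ x in cube, tdens (fun i y => v y i) (fun i y => b y i) x|
        ≤ ∫ x in cube, 95 * ∑ i, ∑ j, |pd i (fun y => b y j) x| * gradSq v x := by
      refine abs_integral_le_integral_abs.trans (integral_mono_of_nonneg
        (Filter.Eventually.of_forall fun x => abs_nonneg _)
        ((integrable_finsetSum _ fun i _ => integrable_finsetSum _ fun j _ => i1 i j).const_mul _)
        (Filter.Eventually.of_forall fun x => abs_tdens_le v b x))
    rw [integral_const_mul, integral_finsetSum _ fun i _ => integrable_finsetSum _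
      fun j _ => i1 i j] at h4
    have h5 : ∀ i, ∫ x in cube, ∑ j, |pd i (fun y => b y j) x| * gradSq v x
        = ∑ j, ∫ x in cube, |pd i (fun y => b y j) x| * gradSq v x := fun i =>
      integral_finsetSum _ fun j _ => i1 i j
    simp_rw [h5] at h4
    have h6 : ∑ i, ∑ j, ∫ x in cube, |pd i (fun y => b y j) x| * gradSq v x
        ≤ 9 * (C5 * (γ * (G ^ (2 - th s) * H ^ th s))) := by
      refine (Finset.sum_le_sum fun i _ => Finset.sum_le_sum fun j _ => h2 i j).trans
        (le_of_eq ?_)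
      simp
      ring
    have h7 := neg_abs_le (∫ x in cube, tdens (fun i y => v y i) (fun i y => b y i) x)
    linarith
  -- nonnegativity of the terms
  have hX1 : 0 ≤ β * (G ^ (1 - th p) * H ^ th p * H) :=
    mul_nonneg hβ (mul_nonneg (mul_nonneg (Real.rpow_nonneg hG0 _) (Real.rpow_nonneg hH0 _)) hH0)
  have hX2 : 0 ≤ β * (G ^ (2 - th p) * H ^ th p) :=
    mul_nonneg hβ (mul_nonneg (Real.rpow_nonneg hG0 _) (Real.rpow_nonneg hH0 _))
  have hX3 : 0 ≤ N * (G ^ (2 - th 2) * H ^ th 2) :=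
    mul_nonneg hN (mul_nonneg (Real.rpow_nonneg hG0 _) (Real.rpow_nonneg hH0 _))
  have hX4 : 0 ≤ γ * (G ^ (2 - th s) * H ^ th s) :=
    mul_nonneg hγ (mul_nonneg (Real.rpow_nonneg hG0 _) (Real.rpow_nonneg hH0 _))
  have hX5 : 0 ≤ G * H := mul_nonneg hG0 hH0
  have hX6 : 0 ≤ G * ρ := mul_nonneg hG0 hρ
  set X1 := β * (G ^ (1 - th p) * H ^ th p * H)
  set X2 := β * (G ^ (2 - th p) * H ^ th p)
  set X3 := N * (G ^ (2 - th 2) * H ^ th 2)
  set X4 := γ * (G ^ (2 - th s) * H ^ th s)
  set X5 := G * H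
  set X6 := G * ρ
  -- the bound of the integral of `R`
  have b11 : C1 * (9 * ∫ x in cube, R x)
      ≤ D * (C4 * X3) + D * (C3 * X2) + D * X6 + D * X5 := by
    have hκν : 0 ≤ κ * ν := mul_nonneg hκ hν
    have m1 : ∫ x in cube, R x ≤ (12 + 4 * K) * (C4 * X3) + 2 * (C3 * X2) + 2 * X6
        + 2 * (κ * ν) * X5 := by
      rw [e5]
      have n1 := mul_le_mul_of_nonneg_left b4 (by positivity : 0 ≤ 12 + 4 * K)
      have n4 := mul_le_mul_of_nonneg_left b7 (by positivity : 0 ≤ 2 * (κ * ν))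
      linarith
    set S : ℝ := 12 + 4 * K + 2 + 2 + 2 * (κ * ν) with hS
    have m2 : ∫ x in cube, R x ≤ S * (C4 * X3) + S * (C3 * X2) + S * X6 + S * X5 := by
      have y1 : 0 ≤ C4 * X3 := mul_nonneg hC40 hX3
      have y2 : 0 ≤ C3 * X2 := mul_nonneg hC30 hX2
      have z1 : (12 + 4 * K) * (C4 * X3) ≤ S * (C4 * X3) :=
        mul_le_mul_of_nonneg_right (by rw [hS]; linarith) y1
      have z2 : 2 * (C3 * X2) ≤ S * (C3 * X2) :=
        mul_le_mul_of_nonneg_right (by rw [hS]; linarith) y2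
      have z3 : 2 * X6 ≤ S * X6 := mul_le_mul_of_nonneg_right (by rw [hS]; linarith) hX6
      have z4 : 2 * (κ * ν) * X5 ≤ S * X5 :=
        mul_le_mul_of_nonneg_right (by rw [hS]; linarith) hX5
      linarith
    have m3 := mul_le_mul_of_nonneg_left m2 (by positivity : 0 ≤ C1 * 9)
    calc C1 * (9 * ∫ x in cube, R x) = C1 * 9 * ∫ x in cube, R x := by ring
      _ ≤ C1 * 9 * (S * (C4 * X3) + S * (C3 * X2) + S * X6 + S * X5) := m3
      _ = _ := by
        rw [hD]
        ring
  have b12 := mul_le_mul_of_nonneg_left b9 hC10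
  rw [e4] at h1
  have w1 : 0 ≤ C2 * X2 := mul_nonneg hC20 hX2
  have w2 : 0 ≤ C2 * X3 := mul_nonneg hC20 hX3
  have w3 : 0 ≤ C2 * X4 := mul_nonneg hC20 hX4
  have w4 : 0 ≤ C2 * X5 := mul_nonneg hC20 hX5
  have w5 : 0 ≤ C2 * X6 := mul_nonneg hC20 hX6
  have v1 : 0 ≤ D * X1 := mul_nonneg hD0 hX1
  have v2 : 0 ≤ D * X2 := mul_nonneg hD0 hX2
  have v3 : 0 ≤ D * X3 := mul_nonneg hD0 hX3
  have v4 : 0 ≤ D * X4 := mul_nonneg hD0 hX4
  have u1 : 0 ≤ D * C3 * X1 := mul_nonneg (mul_nonneg hD0 hC30) hX1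
  have u3 : 0 ≤ D * C3 * X3 := mul_nonneg (mul_nonneg hD0 hC30) hX3
  have u4 : 0 ≤ D * C3 * X4 := mul_nonneg (mul_nonneg hD0 hC30) hX4
  have u5 : 0 ≤ D * C3 * X5 := mul_nonneg (mul_nonneg hD0 hC30) hX5
  have u6 : 0 ≤ D * C3 * X6 := mul_nonneg (mul_nonneg hD0 hC30) hX6
  have t1 : 0 ≤ D * C4 * X1 := mul_nonneg (mul_nonneg hD0 hC40) hX1
  have t2 : 0 ≤ D * C4 * X2 := mul_nonneg (mul_nonneg hD0 hC40) hX2
  have t4 : 0 ≤ D * C4 * X4 := mul_nonneg (mul_nonneg hD0 hC40) hX4
  have t5 : 0 ≤ D * C4 * X5 := mul_nonneg (mul_nonneg hD0 hC40) hX5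
  have t6 : 0 ≤ D * C4 * X6 := mul_nonneg (mul_nonneg hD0 hC40) hX6
  have s1 : 0 ≤ C5 * X1 := mul_nonneg hC50 hX1
  have s2 : 0 ≤ C5 * X2 := mul_nonneg hC50 hX2
  have s3 : 0 ≤ C5 * X3 := mul_nonneg hC50 hX3
  have s5 : 0 ≤ C5 * X5 := mul_nonneg hC50 hX5
  have s6 : 0 ≤ C5 * X6 := mul_nonneg hC50 hX6
  nlinarith [h1, b1, b2, b3, b10, b11, b12]

end Pool.Agent.H41N.NL
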