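import Pool.Agent.H41N.NL.Bound
import Pool.Agent.H459R3.NS.Final

/-!
Gronwall's inequality with a source, and the criterion.
-/

open MeasureTheory Set Filter Topology
open H459R3.NS Pool.Agent.W268.NS
open scoped NNReal ENNReal ContDiff

set_option autoImplicit false

namespace Pool.Agent.H41N.NL

variable {ν T : ℝ} {u : ℝ → V → V} {P : ℝ → V → ℝ}

theorem gron_source (h : IsSol ν T u P) (hν : 0 < ν) {g : ℝ → ℝ} {B δ : ℝ} (hδ : 0 < δ)
    (hg0 : ∀ s ∈ Ioo 0 T, 0 ≤ g s) (hgi : ∀ t ∈ Ico 0 T, IntegrableOn g (Icc 0 t))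
    (hgB : ∀ t ∈ Ico 0 T, ∫ s in (0 : ℝ)..t, g s ≤ B)
    (hd : ∀ s ∈ Ioo 0 T, -(2 * cub (fun i y => u s y i))
      ≤ (2 - δ) * (ν * palin (u s)) + g s * (enstrophy (u s) + 1)) :
    (∀ t ∈ Ico 0 T, enstrophy (u t) + 1 ≤ (enstrophy (u 0) + 1) * Real.exp B) ∧
    ∃ C, ∀ t ∈ Ico 0 T, ∀ x i, |u t x i| ≤ C := by
  set y : ℝ → ℝ := fun s => enstrophy (u s) with hy
  have hy0 : ∀ s, 0 ≤ y s := fun s => enstrophy_nonneg _
  have hen : ∀ t ∈ Ico 0 T, y t + 1 ≤ (y 0 + 1) * Real.exp B := by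
    intro t ht
    have hyc : ContinuousOn y (Icc 0 t) :=
      h.enstrophy_continuousOn.mono fun s hs => ⟨hs.1, hs.2.trans_lt ht.2⟩
    have hpos : ∀ s, 0 < y s + 1 := fun s => by linarith [hy0 s]
    have hc : ContinuousOn (fun s => Real.log (y s + 1)) (Icc 0 t) :=
      (hyc.add continuousOn_const).log fun s _ => (hpos s).ne'
    have hd' : ∀ s ∈ Ioo 0 t, HasDerivWithinAt (fun s => Real.log (y s + 1))
        ((-(2 * ν * palin (u s)) - 2 * cub (fun i y => u s y i)) / (y s + 1)) (Ioi s) s := by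
      intro s hs
      exact (((h.enstrophy_hasDerivAt ⟨hs.1, hs.2.trans ht.2⟩).add_const 1).log
        (hpos s).ne').hasDerivWithinAt
    have hle : ∀ s ∈ Ioo 0 t,
        (-(2 * ν * palin (u s)) - 2 * cub (fun i y => u s y i)) / (y s + 1) ≤ g s := by
      intro s hs
      rw [div_le_iff₀ (hpos s)]
      have h1 := hd s ⟨hs.1, hs.2.trans ht.2⟩
      have h2 : 0 ≤ δ * (ν * palin (u s)) := mul_nonneg hδ.le (mul_nonneg hν.le (palin_nonneg _))
      linarith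
    have h1 := intervalIntegral.sub_le_integral_of_hasDeriv_right_of_le ht.1 hc hd' (hgi t ht) hle
    have h2 : Real.log (y t + 1) ≤ Real.log (y 0 + 1) + B := by linarith [hgB t ht]
    calc y t + 1 = Real.exp (Real.log (y t + 1)) := (Real.exp_log (hpos t)).symm
      _ ≤ Real.exp (Real.log (y 0 + 1) + B) := Real.exp_le_exp.2 h2
      _ = (y 0 + 1) * Real.exp B := by rw [Real.exp_add, Real.exp_log (hpos 0)]
  refine ⟨hen, ?_⟩
  set Y : ℝ := (y 0 + 1) * Real.exp B with hY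
  have hY0 : 0 ≤ Y := mul_nonneg (by linarith [hy0 0]) (Real.exp_pos _).le
  refine h.bounded_of_int_palin hν (K := (y 0 + Y * B) / (δ * ν)) fun t ht => ?_
  have hyc : ContinuousOn y (Icc 0 t) :=
    h.enstrophy_continuousOn.mono fun s hs => ⟨hs.1, hs.2.trans_lt ht.2⟩
  have hPc : ContinuousOn (fun s => palin (u s)) (Icc 0 t) :=
    h.palin_continuousOn.mono fun s hs => ⟨hs.1, hs.2.trans_lt ht.2⟩
  have hP1 : IntegrableOn (fun s => palin (u s)) (Icc 0 t) := hPc.integrableOn_Icc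
  have i2 : IntervalIntegrable (fun s => palin (u s)) volume 0 t :=
    (intervalIntegrable_iff_integrableOn_Icc_of_le ht.1).2 hP1
  have i1 : IntervalIntegrable g volume 0 t :=
    (intervalIntegrable_iff_integrableOn_Icc_of_le ht.1).2 (hgi t ht)
  have hg1 : IntegrableOn (fun s => -(δ * ν * palin (u s)) + Y * g s) (Icc 0 t) :=
    ((hP1.const_mul (δ * ν)).neg).add ((hgi t ht).const_mul _)
  have h1 := intervalIntegral.sub_le_integral_of_hasDeriv_right_of_le ht.1 hyc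
    (fun s hs => (h.enstrophy_hasDerivAt ⟨hs.1, hs.2.trans ht.2⟩).hasDerivWithinAt) hg1
    (fun s hs => by
      have hs' : s ∈ Ioo 0 T := ⟨hs.1, hs.2.trans ht.2⟩
      have a1 := hd s hs'
      have a2 : g s * (y s + 1) ≤ Y * g s := by
        rw [mul_comm]
        exact mul_le_mul_of_nonneg_right (hen s ⟨hs'.1.le, hs'.2⟩) (hg0 s hs')
      linarith)
  have j1 : IntervalIntegrable (fun s => -(δ * ν * palin (u s))) volume 0 t :=
    (i2.const_mul (δ * ν)).neg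
  have j2 : IntervalIntegrable (fun s => Y * g s) volume 0 t := i1.const_mul _
  rw [intervalIntegral.integral_add j1 j2, intervalIntegral.integral_neg,
    intervalIntegral.integral_const_mul, intervalIntegral.integral_const_mul] at h1
  have a1 := mul_le_mul_of_nonneg_left (hgB t ht) hY0
  have a4 := hy0 t
  rw [le_div_iff₀ (by positivity)]
  linarith

theorem rpow_le_one_add {β a b : ℝ} (hβ : 0 ≤ β) (ha : 0 ≤ a) (hab : a ≤ b) :
    β ^ a ≤ 1 + β ^ b := by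
  have hb : 0 ≤ β ^ b := Real.rpow_nonneg hβ b
  rcases le_total β 1 with h1 | h1
  · have := Real.rpow_le_one hβ h1 ha
    linarith
  · have := Real.rpow_le_rpow_of_exponent_le h1 hab
    linarith

theorem th_two : th 2 = 3 / 2 := by
  unfold th
  rw [ENNReal.toReal_inv]
  norm_num

/-- From the bound of the production to the differential inequality. -/
theorem absorb {p s : ℝ≥0∞} (hp : 3 < p) (hs : 3 / 2 < s) {q r : ℝ}
    (hpq : 3 * (p⁻¹).toReal + 2 / q = 1) (hsr : 3 * (s⁻¹).toReal + 2 / r = 2) {κ ν C : ℝ}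
    (hν : 0 < ν) (hκ : κ < 1) (hC : 0 ≤ C) : ∃ D : ℝ, 0 ≤ D ∧
    ∀ N β γ ρ G H : ℝ, 0 ≤ N → 0 ≤ β → 0 ≤ γ → 0 ≤ ρ → 0 ≤ G → 0 ≤ H →
      2 * (κ * ν * H ^ 2 + ρ * H
        + C * (β * (G ^ (1 - th p) * H ^ th p * H)) + C * (β * (G ^ (2 - th p) * H ^ th p))
        + C * (N * (G ^ (2 - th 2) * H ^ th 2)) + C * (γ * (G ^ (2 - th s) * H ^ th s))
        + C * (G * H) + C * (G * ρ))
      ≤ (2 - (1 - κ)) * (ν * H ^ 2)
        + D * (1 + N ^ 4 + β ^ q + γ ^ r + ρ ^ 2) * (G ^ 2 + 1) := by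
  have hθ0 := th_nonneg p
  have hθ1 := th_lt_one hp
  have hσ0 := th_nonneg s
  have hσ2 := th_lt_two hs
  have hq : q = 2 / (1 - th p) := by
    have h1 : 2 / q = 1 - th p := by
      have : th p = 3 * (p⁻¹).toReal := rfl
      rw [this]
      linarith
    rw [← h1]
    have : q ≠ 0 := by
      intro h0
      rw [h0, div_zero] at h1
      linarith
    field_simp
  have hr : r = 2 / (2 - th s) := by
    have h1 : 2 / r = 2 - th s := by
      have : th s = 3 * (s⁻¹).toReal := rfl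
      rw [this]
      linarith
    rw [← h1]
    have : r ≠ 0 := by
      intro h0
      rw [h0, div_zero] at h1
      linarith
    field_simp
  set ε : ℝ := (1 - κ) * ν / 6 with hε
  have hε0 : 0 < ε := by
    have : 0 < 1 - κ := by linarith
    positivity
  obtain ⟨D1, hD10, hD1⟩ := young (θ := th p) (ν := 2 * ε) (c := 2 * C) hθ0 hθ1 (by positivity)
    (by positivity)
  obtain ⟨D2, hD20, hD2⟩ := young2 (θ := th p) (ε := ε) (c := 2 * C) hθ0 (by linarith) hε0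
    (by positivity)
  obtain ⟨D3, hD30, hD3⟩ := young2 (θ := th 2) (ε := ε) (c := 2 * C) (th_nonneg 2)
    (by rw [th_two]; norm_num) hε0 (by positivity)
  obtain ⟨D4, hD40, hD4⟩ := young2 (θ := th s) (ε := ε) (c := 2 * C) hσ0 hσ2 hε0 (by positivity)
  refine ⟨D1 + 2 * D2 + D3 + D4 + C ^ 2 / ε + 1 / ε + 2 * C, by positivity, ?_⟩
  intro N β γ ρ G H hN hβ hγ hρ hG hH
  have y1 := hD1 β G H hβ hG hH
  have y2 := hD2 β G H hβ hG hH
  have y3 := hD3 N G H hN hG hH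
  have y4 := hD4 γ G H hγ hG hH
  rw [← hq] at y1
  rw [← hr] at y4
  have e3 : (2 : ℝ) / (2 - th 2) = 4 := by rw [th_two]; norm_num
  have e3' : N ^ (2 / (2 - th 2)) = N ^ 4 := by
    rw [e3]
    exact_mod_cast Real.rpow_natCast N 4
  rw [e3'] at y3
  have e2 : β ^ (2 / (2 - th p)) ≤ 1 + β ^ q := by
    refine rpow_le_one_add hβ (div_nonneg zero_le_two (by linarith)) ?_
    rw [hq]
    exact div_le_div_of_nonneg_left (by norm_num) (by linarith) (by linarith)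
  have hβq : 0 ≤ β ^ q := Real.rpow_nonneg hβ q
  have hγr : 0 ≤ γ ^ r := Real.rpow_nonneg hγ r
  have hN4 : 0 ≤ N ^ 4 := by positivity
  have hρ2 : 0 ≤ ρ ^ 2 := sq_nonneg ρ
  have hG2 : 0 ≤ G ^ 2 := sq_nonneg G
  set S : ℝ := 1 + N ^ 4 + β ^ q + γ ^ r + ρ ^ 2 with hS
  set Z : ℝ := S * (G ^ 2 + 1) with hZ
  have zz : ∀ a : ℝ, 0 ≤ a → a ≤ S → a * G ^ 2 ≤ Z := by
    intro a ha haS
    rw [hZ]
    exact mul_le_mul haS (by linarith) hG2 (by linarith)
  have z1 := mul_le_mul_of_nonneg_left (zz _ hβq (by rw [hS]; linarith)) hD10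
  have z2 := mul_le_mul_of_nonneg_left (zz (1 + β ^ q) (by linarith) (by rw [hS]; linarith)) hD20
  have z3 := mul_le_mul_of_nonneg_left (zz _ hN4 (by rw [hS]; linarith)) hD30
  have z4 := mul_le_mul_of_nonneg_left (zz _ hγr (by rw [hS]; linarith)) hD40
  have z5 : G ^ 2 ≤ Z := by
    have := zz 1 zero_le_one (by rw [hS]; linarith)
    linarith
  have z6 : ρ ^ 2 ≤ Z := by
    have h1 : ρ ^ 2 * 1 ≤ Z := by
      rw [hZ]
      exact mul_le_mul (by rw [hS]; linarith) (by linarith) zero_le_one (by rw [hS]; linarith)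
    linarith
  have y2' : D2 * (β ^ (2 / (2 - th p)) * G ^ 2) ≤ D2 * ((1 + β ^ q) * G ^ 2) :=
    mul_le_mul_of_nonneg_left (mul_le_mul_of_nonneg_right e2 hG2) hD20
  have hεinv : 0 < 1 / ε := by positivity
  have y5 : 2 * (ρ * H) ≤ ε * H ^ 2 + 1 / ε * ρ ^ 2 := by
    have h1 : 0 ≤ ε * (H - 1 / ε * ρ) ^ 2 := by positivity
    have h2 : ε * (H - 1 / ε * ρ) ^ 2 = ε * H ^ 2 - 2 * (ρ * H) + 1 / ε * ρ ^ 2 := by
      field_simp
      ring
    linarith
  have y6 : 2 * (C * (G * H)) ≤ ε * H ^ 2 + C ^ 2 / ε * G ^ 2 := by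
    have h1 : 0 ≤ ε * (H - C / ε * G) ^ 2 := by positivity
    have h2 : ε * (H - C / ε * G) ^ 2 = ε * H ^ 2 - 2 * (C * (G * H)) + C ^ 2 / ε * G ^ 2 := by
      field_simp
      ring
    linarith
  have y7 : 2 * (C * (G * ρ)) ≤ C * (G ^ 2 + ρ ^ 2) := by
    have h1 : 0 ≤ C * (G - ρ) ^ 2 := by positivity
    have h2 : C * (G - ρ) ^ 2 = C * (G ^ 2 + ρ ^ 2) - 2 * (C * (G * ρ)) := by ring
    linarith
  have z7 := mul_le_mul_of_nonneg_left z6 hεinv.le
  have z8 := mul_le_mul_of_nonneg_left z5 (by positivity : 0 ≤ C ^ 2 / ε)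
  have z9 := mul_le_mul_of_nonneg_left z5 hC
  have z10 := mul_le_mul_of_nonneg_left z6 hC
  have hZ0 : 0 ≤ Z := hG2.trans z5
  have z11 : 0 ≤ D2 * Z := mul_nonneg hD20 hZ0
  have e6 : 6 * (ε * H ^ 2) = (1 - κ) * (ν * H ^ 2) := by
    rw [hε]
    ring
  have e7 : (D1 + 2 * D2 + D3 + D4 + C ^ 2 / ε + 1 / ε + 2 * C) * S * (G ^ 2 + 1)
      = D1 * Z + 2 * (D2 * Z) + D3 * Z + D4 * Z + C ^ 2 / ε * Z + 1 / ε * Z + 2 * (C * Z) := by
    rw [hZ]
    ring
  rw [e7]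
  have e8 : 2 * ε / 2 * H ^ 2 = ε * H ^ 2 := by ring
  rw [e8] at y1
  linarith

end Pool.Agent.H41N.NL
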