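import Pool.Agent.H459R3.NS.Defs

/-!
Definitions for the criterion with closed curves which are carried along by a velocity field.

`V = Fin 3 → ℝ`; `|·|` is the Euclidean norm `nr`.
-/

open MeasureTheory Set
open H459R3.NS

set_option autoImplicit false

namespace Pool.Agent.H41N.NL

/-- The Euclidean norm. -/
noncomputable def nr (e : V) : ℝ := Real.sqrt (∑ i, e i ^ 2)

/-- The end point of the polygon which starts at the point `x` and has the edges `l`. -/
noncomputable def endp : V → List V → V
  | x, [] => x
  | x, e :: l => endp (x + e) l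

/-- All vertices of the polygon which starts at `x` and has the edges `l` are in the closed cube
with centre `c` and side `d`. -/
def Inside (c : V) (d : ℝ) : V → List V → Prop
  | x, [] => ∀ i, |x i - c i| ≤ d / 2
  | x, e :: l => (∀ i, |x i - c i| ≤ d / 2) ∧ Inside c d (x + e) l

/-- The integral of `L · dx` over the polygon which starts at `x` and has the edges `l`. -/
noncomputable def circ (L : V → V) : V → List V → ℝ
  | _, [] => 0
  | x, e :: l => (∫ r in (0 : ℝ)..1, ∑ i, L (x + r • e) i * e i) + circ L (x + e) l

/-- The integral of `w(x, dx)` over the polygon which starts at `x` and has the edges `l`. -/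
noncomputable def cost (w : V → V → ℝ) : V → List V → ℝ
  | _, [] => 0
  | x, e :: l => (∫ r in (0 : ℝ)..1, w (x + r • e) e) + cost w (x + e) l

/-- `∮ L · dx ≤ ∮ w(x, dx)` for all closed polygons with all vertices in the closed cube with
centre `c` and side `d`. -/
def LoopsIn (c : V) (d : ℝ) (L : V → V) (w : V → V → ℝ) : Prop :=
  ∀ (x : V) (l : List V), Inside c d x l → endp x l = x → circ L x l ≤ cost w x l

/-- `∮ L · dx ≤ ∮ w(x, dx)` for all closed polygons in all closed cubes with side `d`. -/
def Loops (d : ℝ) (L : V → V) (w : V → V → ℝ) : Prop := ∀ c, LoopsIn c d L w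

/-- `|∇v|`: the Euclidean norm of the matrix of the derivatives. -/
noncomputable def gradNorm (v : V → V) (x : V) : ℝ :=
  Real.sqrt (∑ i, ∑ j, pd i (fun y => v y j) x ^ 2)

/-- `Δv`. -/
noncomputable def lapv (v : V → V) (x : V) : V := fun i => lap (fun y => v y i) x

/-- `curl v`. -/
noncomputable def curl (v : V → V) (x : V) : V :=
  ![pd 1 (fun y => v y 2) x - pd 2 (fun y => v y 1) x,
    pd 2 (fun y => v y 0) x - pd 0 (fun y => v y 2) x,
    pd 0 (fun y => v y 1) x - pd 1 (fun y => v y 0) x]

/-- The field `(v - b) × curl v`. -/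
noncomputable def slip (v b : V → V) (x : V) : V := crossProduct (v x - b x) (curl v x)

/-- The cost
`w(x, e) = (f |∇v| + κ ν |Δv| + g) |e| + K (|v| + |b|) |∇v| (|e| - e · J / |J|)`, where
`J = -Δv` (which is `curl curl v` for a divergence-free field), and `J / |J|` is `0` if `J = 0`. -/
noncomputable def weight (K κ ν : ℝ) (f g : V → ℝ) (v b : V → V) (x e : V) : ℝ :=
  (f x * gradNorm v x + κ * ν * nr (lapv v x) + g x) * nr e
    + K * (nr (v x) + nr (b x)) * gradNorm v x
      * (nr e - (∑ i, e i * -lapv v x i) / nr (lapv v x))

end Pool.Agent.H41N.NL
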