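import Pool.Agent.H41N.NL.Loop

/-!
The derivative of the potential.
-/

open MeasureTheory Set Filter Topology
open H459R3.NS
open scoped NNReal

set_option autoImplicit false

namespace Pool.Agent.H41N.NL

variable {c : V} {d : ℝ} {L : V → V} {w : V → V → ℝ} {A B : V → ℝ} {J : V → V}

/-- comparison of a derivative with a bound of the differences -/
theorem le_of_deriv {Φ F : ℝ → ℝ} {a b : ℝ} (hΦ : HasDerivAt Φ a 0)
    (h : ∀ᶠ t in 𝓝[>] (0 : ℝ), Φ t - Φ 0 ≤ ∫ r in (0 : ℝ)..t, F r) (hF0 : ∀ r, 0 ≤ F r)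
    (hF : ∀ ε : ℝ, 0 < ε → ∀ᶠ r in 𝓝[>] (0 : ℝ), F r ≤ b + ε) : a ≤ b := by
  refine le_of_forall_pos_le_add fun ε hε => ?_
  have h1 := (hasDerivAt_iff_tendsto_slope.1 hΦ).mono_left
    (nhdsWithin_mono (0 : ℝ) (fun x (hx : x ∈ Ioi (0 : ℝ)) => (ne_of_gt hx : x ≠ 0)))
  refine le_of_tendsto h1 ?_
  obtain ⟨u, hu, hu2⟩ := (mem_nhdsGT_iff_exists_Ioo_subset).1 (hF ε hε)
  have hu' : Ioo (0 : ℝ) u ∈ 𝓝[>] (0 : ℝ) := Ioo_mem_nhdsGT hu
  filter_upwards [h, hu'] with t ht htu
  have ht0 : 0 < t := htu.1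
  rw [slope_def_field, sub_zero, div_le_iff₀ ht0]
  have h2 : |∫ r in (0 : ℝ)..t, F r| ≤ (b + ε) * |t - 0| := by
    rw [← Real.norm_eq_abs]
    refine intervalIntegral.norm_integral_le_of_norm_le_const fun r hr => ?_
    rw [Set.uIoc_of_le ht0.le] at hr
    rw [Real.norm_eq_abs, abs_of_nonneg (hF0 r)]
    exact hu2 ⟨hr.1, lt_of_le_of_lt hr.2 htu.2⟩
  rw [sub_zero, abs_of_pos ht0] at h2
  exact ht.trans ((le_abs_self _).trans h2)

/-- The cost `w(x, dx)`: at most `B |dx|`, and `A |dx|` in the direction of `J`. -/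
structure IsCost (A B : V → ℝ) (J : V → V) (w : V → V → ℝ) : Prop where
  nonneg : ∀ x e, 0 ≤ w x e
  hom : ∀ x e (t : ℝ), 0 ≤ t → w x (t • e) = t * w x e
  le : ∀ x e, w x e ≤ B x * nr e
  contB : Continuous B
  dir : ∀ x, J x ≠ 0 → ∀ ε : ℝ, 0 < ε →
    ∀ᶠ r in 𝓝[>] (0 : ℝ), w (x + r • J x) (J x) ≤ A x * nr (J x) + ε

/-- the open cube -/
def Open (c : V) (d : ℝ) : Set V := {x | ∀ i, |x i - c i| < d / 2}

theorem open_isOpen (c : V) (d : ℝ) : IsOpen (Open c d) := by
  have : Open c d = ⋂ i, {x : V | |x i - c i| < d / 2} := by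
    ext x
    simp [Open]
  rw [this]
  exact isOpen_iInter_of_finite fun i =>
    isOpen_lt ((continuous_apply i).sub continuous_const).abs continuous_const

theorem continuous_ray (x e : V) : Continuous fun r : ℝ => x + r • e :=
  continuous_const.add (continuous_id.smul continuous_const)

theorem nr_smul (t : ℝ) (ht : 0 ≤ t) (e : V) : nr (t • e) = t * nr e := by
  unfold nr
  simp only [Pi.smul_apply, smul_eq_mul, mul_pow]
  rw [← Finset.mul_sum, Real.sqrt_mul (sq_nonneg t), Real.sqrt_sq ht]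

theorem nr_single (j : Fin 3) : nr (Pi.single j (1 : ℝ) : V) = 1 := by
  unfold nr
  have : ∑ i, ((Pi.single j (1 : ℝ) : V) i) ^ 2 = 1 := by
    rw [Finset.sum_eq_single j]
    · simp
    · intro i _ hi
      simp [hi]
    · simp
  rw [this, Real.sqrt_one]

theorem exists_pot (hd : 0 < d) (hL : Continuous L) (hw : IsCost A B J w)
    (h : LoopsIn c d L w) : ∃ (φ : V → ℝ) (K : ℝ≥0), LipschitzWith K φ ∧
      ∀ x ∈ Open c d, DifferentiableAt ℝ φ x →
        (∀ j, |fderiv ℝ φ x (Pi.single j 1)| ≤ |L x j| + B x) ∧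
        (fderiv ℝ φ x (J x) + ∑ i, L x i * J x i ≤ A x * nr (J x)) := by
  -- the closed cube
  set Q : Set V := {x | ∀ i, |x i - c i| ≤ d / 2} with hQ
  have hQc : IsCompact Q := by
    have : Q = Set.Icc (fun i => c i - d / 2) (fun i => c i + d / 2) := by
      ext x
      constructor
      · intro hx
        exact ⟨fun i => by linarith [(abs_le.1 (hx i)).1], fun i => by linarith [(abs_le.1 (hx i)).2]⟩
      · intro hx i
        rw [abs_le]
        constructor <;> linarith [hx.1 i, hx.2 i]
    rw [this]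
    exact isCompact_Icc
  obtain ⟨K1, hK1⟩ := hQc.exists_bound_of_continuousOn hL.continuousOn
  obtain ⟨K2, hK2⟩ := hQc.exists_bound_of_continuousOn hw.contB.continuousOn
  set K : ℝ := max (max K1 K2) 0 with hK
  have hK0 : 0 ≤ K := le_max_right _ _
  have hLK : ∀ j y, (∀ i, |y i - c i| ≤ d / 2) → |L y j| ≤ K := by
    intro j y hy
    refine ((norm_le_pi_norm (L y) j).trans (hK1 y hy)).trans ?_
    exact (le_max_left _ _).trans (le_max_left _ _)
  have hwK : ∀ y e, (∀ i, |y i - c i| ≤ d / 2) → |w y e| ≤ K * nr e := by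
    intro y e hy
    rw [abs_of_nonneg (hw.nonneg y e)]
    refine (hw.le y e).trans (mul_le_mul_of_nonneg_right ?_ (nr_nonneg e))
    exact ((le_abs_self _).trans (hK2 y hy)).trans ((le_max_right _ _).trans (le_max_left _ _))
  have hlip : LipschitzOnWith (Real.toNNReal (12 * K)) (pot c d L w) Q := by
    refine LipschitzOnWith.of_dist_le_mul fun x hx y hy => ?_
    rw [Real.coe_toNNReal _ (by positivity), Real.dist_eq, dist_eq_norm]
    exact pot_lip hd h hK0 hLK hwK hy hx
  obtain ⟨φ, hφ, he⟩ := hlip.extend_real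
  refine ⟨φ, _, hφ, fun x hx hdiff => ?_⟩
  have hxQ : x ∈ Q := fun i => (hx i).le
  -- the derivative in the direction `e`
  have main : ∀ (e : V) (b : ℝ), (∀ ε : ℝ, 0 < ε → ∀ᶠ r in 𝓝[>] (0 : ℝ), w (x + r • e) e ≤ b + ε) →
      fderiv ℝ φ x e + ∑ i, L x i * e i ≤ b := by
    intro e b hb
    have hline : HasDerivAt (fun t : ℝ => φ (x + t • e)) (fderiv ℝ φ x e) 0 := by
      have h1 : HasDerivAt (fun t : ℝ => x + t • e) e 0 := by
        have := ((hasDerivAt_id (0 : ℝ)).smul_const e).const_add x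
        simpa using this
      have h2 : HasFDerivAt φ (fderiv ℝ φ x) (x + (0 : ℝ) • e) := by
        rw [zero_smul, add_zero]
        exact hdiff.hasFDerivAt
      exact h2.comp_hasDerivAt (0 : ℝ) h1
    have hc : Continuous fun r : ℝ => ∑ i, L (x + r • e) i * e i :=
      continuous_finsetSum _ fun i _ =>
        ((continuous_apply i).comp (hL.comp (continuous_ray x e))).mul continuous_const
    have hF : HasDerivAt (fun t : ℝ => ∫ r in (0 : ℝ)..t, ∑ i, L (x + r • e) i * e i)
        (∑ i, L x i * e i) 0 := by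
      have h1 := intervalIntegral.integral_hasDerivAt_right (hc.intervalIntegrable 0 0)
        (hc.stronglyMeasurableAtFilter _ _) hc.continuousAt
      simpa using h1
    have hev : ∀ᶠ t in 𝓝[>] (0 : ℝ), x + t • e ∈ Open c d := by
      have hct := (continuous_ray x e).continuousAt (x := (0 : ℝ))
      have hmem : Open c d ∈ 𝓝 (x + (0 : ℝ) • e) := by
        rw [zero_smul, add_zero]
        exact (open_isOpen c d).mem_nhds hx
      have hnh : ∀ᶠ t in 𝓝 (0 : ℝ), x + t • e ∈ Open c d := hct hmem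
      exact hnh.filter_mono nhdsWithin_le_nhds
    refine le_of_deriv (hline.add hF) ?_ (fun r => hw.nonneg (x + r • e) e) hb
    filter_upwards [hev, self_mem_nhdsWithin] with t ht ht0
    have ht0' : 0 ≤ t := le_of_lt ht0
    have htQ : x + t • e ∈ Q := fun i => (ht i).le
    have h1 := pot_step hd h (x := x) (e := t • e) hxQ htQ
    have e1 := he htQ
    have e2 := he hxQ
    have e3 : ∫ r in (0 : ℝ)..1, w (x + r • t • e) (t • e) = ∫ r in (0 : ℝ)..t, w (x + r • e) e := by
      have h3 := intervalIntegral.mul_integral_comp_mul_right (f := fun r => w (x + r • e) e) t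
        (a := 0) (b := 1)
      rw [zero_mul, one_mul] at h3
      rw [← h3, ← intervalIntegral.integral_const_mul]
      refine intervalIntegral.integral_congr fun r _ => ?_
      show w (x + r • t • e) (t • e) = t * w (x + (r * t) • e) e
      rw [hw.hom _ _ t ht0', smul_smul]
    have e4 : ∫ r in (0 : ℝ)..1, ∑ i, L (x + r • t • e) i * (t • e) i
        = ∫ r in (0 : ℝ)..t, ∑ i, L (x + r • e) i * e i := by
      have h3 := intervalIntegral.mul_integral_comp_mul_right
        (f := fun r => ∑ i, L (x + r • e) i * e i) t (a := 0) (b := 1)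
      rw [zero_mul, one_mul] at h3
      rw [← h3, ← intervalIntegral.integral_const_mul]
      refine intervalIntegral.integral_congr fun r _ => ?_
      simp only [Pi.smul_apply, smul_eq_mul]
      rw [Finset.mul_sum, smul_smul]
      exact Finset.sum_congr rfl fun i _ => by ring
    rw [e3, e4] at h1
    simp only [Pi.add_apply, zero_smul, add_zero, intervalIntegral.integral_same]
    rw [← e1, ← e2]
    linarith
  have hup : ∀ e : V, fderiv ℝ φ x e + ∑ i, L x i * e i ≤ B x * nr e := by
    intro e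
    refine main e _ fun ε hε => ?_
    have h1 : Tendsto (fun r : ℝ => B (x + r • e) * nr e) (𝓝[>] 0) (𝓝 (B x * nr e)) := by
      have h2 := ((hw.contB.comp (continuous_ray x e)).mul
        (continuous_const (y := nr e))).tendsto (0 : ℝ)
      have h3 : B (x + (0 : ℝ) • e) * nr e = B x * nr e := by rw [zero_smul, add_zero]
      have h4 : Tendsto (fun r : ℝ => B (x + r • e) * nr e) (𝓝 0) (𝓝 (B x * nr e)) := by
        rw [← h3]
        exact h2
      exact h4.mono_left nhdsWithin_le_nhds
    filter_upwards [h1.eventually (gt_mem_nhds (by linarith : B x * nr e < B x * nr e + ε))]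
      with r hr
    exact (hw.le _ _).trans hr.le
  refine ⟨fun j => ?_, ?_⟩
  · have h1 := hup (Pi.single j 1)
    have h2 := hup (-Pi.single j 1)
    have e1 : ∑ i, L x i * (Pi.single j (1 : ℝ) : V) i = L x j := by
      rw [Finset.sum_eq_single j]
      · simp
      · intro i _ hi
        simp [hi]
      · simp
    have e2 : ∑ i, L x i * (-Pi.single j (1 : ℝ) : V) i = -L x j := by
      rw [← e1, ← Finset.sum_neg_distrib]
      exact Finset.sum_congr rfl fun i _ => by simp
    rw [nr_neg, map_neg, e2, nr_single, mul_one] at h2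
    rw [e1, nr_single, mul_one] at h1
    have h3 := le_abs_self (L x j)
    have h4 := neg_abs_le (L x j)
    rw [abs_le]
    constructor <;> linarith
  · by_cases hJ : J x = 0
    · rw [hJ, map_zero]
      have : nr (0 : V) = 0 := by
        unfold nr
        simp
      rw [this]
      simp
    · exact main (J x) _ (hw.dir x hJ)

/-- integration by parts -/
theorem int_lip {φ g : V → ℝ} {K : ℝ≥0} (hφ : LipschitzWith K φ) (hg : ContDiff ℝ 1 g)
    (hgc : HasCompactSupport g) (j : Fin 3) :
    Integrable (fun x => fderiv ℝ φ x (Pi.single j 1) * g x) volume ∧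
    ∫ x, φ x * pd j g x = -∫ x, fderiv ℝ φ x (Pi.single j 1) * g x := by
  obtain ⟨D, hgD⟩ := ContDiff.lipschitzWith_of_hasCompactSupport hgc hg one_ne_zero
  have h1 := hφ.integral_lineDeriv_mul_eq (μ := volume) hgD hgc (Pi.single j (1 : ℝ) : V)
  have e1 : ∀ x, lineDeriv ℝ g x (-(Pi.single j (1 : ℝ) : V)) = -pd j g x := by
    intro x
    rw [((hg.differentiable one_ne_zero) x).lineDeriv_eq_fderiv]
    unfold pd
    rw [map_neg]
  simp_rw [e1] at h1
  have e3 : (fun x => lineDeriv ℝ φ x (Pi.single j 1) * g x)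
      =ᵐ[volume] fun x => fderiv ℝ φ x (Pi.single j 1) * g x := by
    filter_upwards [hφ.ae_differentiableAt] with x hx
    rw [hx.lineDeriv_eq_fderiv]
  have i1 : Integrable (fun x => lineDeriv ℝ φ x (Pi.single j 1) * g x) volume := by
    have := (hφ.locallyIntegrable_lineDeriv (μ := volume)
      (Pi.single j (1 : ℝ) : V)).integrable_smul_right_of_hasCompactSupport hg.continuous hgc
    simpa [smul_eq_mul] using this
  refine ⟨i1.congr e3, ?_⟩
  rw [← integral_congr_ae e3, h1, ← integral_neg]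
  congr 1
  funext x
  ring

end Pool.Agent.H41N.NL
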