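import Pool.Agent.H41N.NL.Local

/-!
The production of enstrophy and the transport of vorticity by another velocity.
-/

open MeasureTheory Set Filter Topology
open H459R3.NS
open scoped NNReal ContDiff

set_option autoImplicit false

namespace Pool.Agent.H41N.NL

variable {v : Fin 3 → V → ℝ} (hv : ∀ i, SP (v i)) (hdiv : ∀ x, ∑ i, pd i (v i) x = 0)

/-- `(b × ω)_i` -/
noncomputable def lorentz (v b : Fin 3 → V → ℝ) (i : Fin 3) (x : V) : ℝ := ∑ j, b j x * vm v i j x

include hv in
theorem sp_lorentz {b : Fin 3 → V → ℝ} (hb : ∀ i, SP (b i)) (i : Fin 3) : SP (lorentz v b i) :=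
  SP.sum fun j _ => (hb j).mul (sp_vm hv i j)

include hv hdiv in
/-- The production of enstrophy is the work of `v × ω` on `curl ω`. -/
theorem cub_lorentz : -cub v = -∑ i, ∫ x in cube, lap (v i) x * lorentz v v i x := by
  have hq : SP fun x => ∑ j, v j x * v j x := SP.sum fun j _ => (hv j).mul (hv j)
  have h0 := int_lap_press hv hdiv hq
  rw [← int_lap_conv hv hdiv]
  have e1 : ∀ i, ∫ x in cube, lap (v i) x * conv v i x
      = (1 / 2) * (∫ x in cube, lap (v i) x * pd i (fun y => ∑ j, v j y * v j y) x)
        - ∫ x in cube, lap (v i) x * lorentz v v i x := by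
    intro i
    rw [← integral_const_mul]
    have i1 : IntegrableOn (fun x => 1 / 2 * (lap (v i) x * pd i (fun y => ∑ j, v j y * v j y) x))
        cube := (((hv i).lap.mul (hq.pd i)).int).const_mul _
    rw [← integral_sub i1 ((hv i).lap.mul (sp_lorentz hv hv i)).int]
    congr 1
    funext x
    have e2 : pd i (fun y => ∑ j, v j y * v j y) x = 2 * ∑ j, v j x * pd i (v j) x := by
      rw [pd_sum (fun j _ => (hv j).mul (hv j)) i x, Finset.mul_sum]
      refine Finset.sum_congr rfl fun j _ => ?_
      rw [pd_mul (hv j) (hv j)]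
      ring
    have e3 : conv v i x = (∑ j, v j x * pd i (v j) x) - lorentz v v i x := by
      unfold conv lorentz vm
      rw [← Finset.sum_sub_distrib]
      exact Finset.sum_congr rfl fun j _ => by ring
    rw [e2, e3]
    ring
  simp_rw [e1]
  rw [Finset.sum_sub_distrib, ← Finset.mul_sum, h0]
  ring

include hv in
/-- first part of the transport term -/
theorem part1 (hdiv : ∀ x, ∑ i, pd i (v i) x = 0) {g : V → ℝ} (hg : SP g) (j : Fin 3) :
    ∑ i, ∫ x in cube, lap (v i) x * (g x * pd i (v j) x)
      = ∑ i, ∑ k, ((∫ x in cube, pd i g x * (pd k (v i) x * pd k (v j) x))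
        - ∫ x in cube, pd k g x * (pd k (v i) x * pd i (v j) x)) := by
  have h1 : ∀ i, ∫ x in cube, lap (v i) x * (g x * pd i (v j) x)
      = -∑ k, ((∫ x in cube, pd k g x * (pd k (v i) x * pd i (v j) x))
        + ∫ x in cube, g x * (pd k (v i) x * pd i (pd k (v j)) x)) := by
    intro i
    rw [int_lap_mul (hv i) (hg.mul ((hv j).pd i))]
    congr 1
    refine Finset.sum_congr rfl fun k _ => ?_
    rw [← integral_add ((hg.pd k).mul (((hv i).pd k).mul ((hv j).pd i))).int
      (hg.mul (((hv i).pd k).mul (((hv j).pd k).pd i))).int]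
    congr 1
    funext x
    rw [pd_mul hg ((hv j).pd i), pd_comm (hv j) k i]
    ring
  have h2 : ∀ k, ∑ i, ∫ x in cube, g x * (pd k (v i) x * pd i (pd k (v j)) x)
      = -∑ i, ∫ x in cube, pd i g x * (pd k (v i) x * pd k (v j) x) := by
    intro k
    have h3 : ∀ i, ∫ x in cube, g x * (pd k (v i) x * pd i (pd k (v j)) x)
        = -((∫ x in cube, pd i g x * (pd k (v i) x * pd k (v j) x))
          + ∫ x in cube, pd i (pd k (v i)) x * (g x * pd k (v j) x)) := by
      intro i
      have h4 := ibp ((hv j).pd k) (hg.mul ((hv i).pd k)) i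
      rw [← integral_add ((hg.pd i).mul (((hv i).pd k).mul ((hv j).pd k))).int
        ((((hv i).pd k).pd i).mul (hg.mul ((hv j).pd k))).int]
      have e1 : ∫ x in cube, g x * (pd k (v i) x * pd i (pd k (v j)) x)
          = ∫ x in cube, pd i (pd k (v j)) x * (g x * pd k (v i) x) := by
        congr 1
        funext x
        ring
      rw [e1, h4]
      congr 2
      funext x
      rw [pd_mul hg ((hv i).pd k)]
      ring
    simp_rw [h3]
    rw [Finset.sum_neg_distrib, Finset.sum_add_distrib]
    have h5 : ∑ i, ∫ x in cube, pd i (pd k (v i)) x * (g x * pd k (v j) x) = 0 := by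
      rw [← integral_finsetSum _ fun i _ =>
        ((((hv i).pd k).pd i).mul (hg.mul ((hv j).pd k))).int]
      have h6 : ∀ x, ∑ i, pd i (pd k (v i)) x * (g x * pd k (v j) x) = 0 := by
        intro x
        rw [← Finset.sum_mul]
        have h7 : ∑ i, pd i (pd k (v i)) x = 0 := by
          have e1 : (fun y => ∑ i, pd i (v i) y) = fun _ => 0 := funext hdiv
          have e2 : ∀ i, pd i (pd k (v i)) x = pd k (pd i (v i)) x := fun i => by
            rw [pd_comm (hv i) i k]
          simp_rw [e2]
          rw [← pd_sum (fun i _ => (hv i).pd i) k x, e1]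
          unfold pd
          simp
        rw [h7, zero_mul]
      simp_rw [h6]
      simp
    rw [h5, add_zero]
  simp_rw [h1]
  rw [Finset.sum_neg_distrib]
  simp_rw [Finset.sum_add_distrib]
  have h8 : ∑ i, ∑ k, ∫ x in cube, g x * (pd k (v i) x * pd i (pd k (v j)) x)
      = -∑ i, ∑ k, ∫ x in cube, pd i g x * (pd k (v i) x * pd k (v j) x) := by
    rw [Finset.sum_comm]
    simp_rw [h2]
    rw [Finset.sum_neg_distrib, Finset.sum_comm]
  rw [h8]
  simp_rw [Finset.sum_sub_distrib]
  ring

include hv in
/-- second part of the transport term -/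
theorem part2 {g : V → ℝ} (hg : SP g) (j : Fin 3) (i : Fin 3) :
    ∫ x in cube, lap (v i) x * (g x * pd j (v i) x)
      = ∑ k, (-(∫ x in cube, pd k g x * (pd k (v i) x * pd j (v i) x))
        + (1 / 2) * ∫ x in cube, pd j g x * (pd k (v i) x * pd k (v i) x)) := by
  rw [int_lap_mul (hv i) (hg.mul ((hv i).pd j)), ← Finset.sum_neg_distrib]
  refine Finset.sum_congr rfl fun k _ => ?_
  have e1 : ∫ x in cube, pd k (v i) x * pd k (fun y => g y * pd j (v i) y) x
      = (∫ x in cube, pd k g x * (pd k (v i) x * pd j (v i) x))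
        + ∫ x in cube, g x * (pd k (v i) x * pd j (pd k (v i)) x) := by
    rw [← integral_add ((hg.pd k).mul (((hv i).pd k).mul ((hv i).pd j))).int
      (hg.mul (((hv i).pd k).mul (((hv i).pd k).pd j))).int]
    congr 1
    funext x
    rw [pd_mul hg ((hv i).pd j), pd_comm (hv i) k j]
    ring
  have e2 : ∫ x in cube, g x * (pd k (v i) x * pd j (pd k (v i)) x)
      = -(1 / 2) * ∫ x in cube, pd j g x * (pd k (v i) x * pd k (v i) x) := by
    have h1 := ibp hg (((hv i).pd k).mul ((hv i).pd k)) j
    have h2 : ∫ x in cube, g x * pd j (fun y => pd k (v i) y * pd k (v i) y) x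
        = 2 * ∫ x in cube, g x * (pd k (v i) x * pd j (pd k (v i)) x) := by
      rw [← integral_const_mul]
      congr 1
      funext x
      rw [pd_mul ((hv i).pd k) ((hv i).pd k)]
      ring
    rw [h2] at h1
    linarith
  rw [e1, e2]
  ring

/-- the density of the transport term -/
noncomputable def tdens (v b : Fin 3 → V → ℝ) (x : V) : ℝ :=
  ∑ j, ∑ i, ∑ k, (pd i (b j) x * (pd k (v i) x * pd k (v j) x)
    - pd k (b j) x * (pd k (v i) x * pd i (v j) x)
    + pd k (b j) x * (pd k (v i) x * pd j (v i) x)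
    - 1 / 2 * (pd j (b j) x * (pd k (v i) x * pd k (v i) x)))

include hv hdiv in
/-- The work of `b × ω` on `curl ω` has no second derivatives. -/
theorem transport {b : Fin 3 → V → ℝ} (hb : ∀ i, SP (b i)) :
    ∑ i, ∫ x in cube, lap (v i) x * lorentz v b i x = ∫ x in cube, tdens v b x := by
  have t1 : ∀ i j k l m n o : Fin 3, SP fun x => pd i (b j) x * (pd k (v l) x * pd m (v n) x) :=
    fun i j k l m n o => ((hb j).pd i).mul (((hv l).pd k).mul ((hv n).pd m))
  have s1 : ∀ j i k : Fin 3, SP fun x => pd i (b j) x * (pd k (v i) x * pd k (v j) x) :=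
    fun j i k => t1 _ _ _ _ _ _ 0
  have s2 : ∀ j i k : Fin 3, SP fun x => pd k (b j) x * (pd k (v i) x * pd i (v j) x) :=
    fun j i k => t1 _ _ _ _ _ _ 0
  have s3 : ∀ j i k : Fin 3, SP fun x => pd k (b j) x * (pd k (v i) x * pd j (v i) x) :=
    fun j i k => t1 _ _ _ _ _ _ 0
  have s4 : ∀ j i k : Fin 3, SP fun x => pd j (b j) x * (pd k (v i) x * pd k (v i) x) :=
    fun j i k => t1 _ _ _ _ _ _ 0
  have e1 : ∑ i, ∫ x in cube, lap (v i) x * lorentz v b i x
      = ∑ j, ((∑ i, ∫ x in cube, lap (v i) x * (b j x * pd i (v j) x))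
        - ∑ i, ∫ x in cube, lap (v i) x * (b j x * pd j (v i) x)) := by
    have h1 : ∀ i, ∫ x in cube, lap (v i) x * lorentz v b i x
        = ∑ j, ((∫ x in cube, lap (v i) x * (b j x * pd i (v j) x))
          - ∫ x in cube, lap (v i) x * (b j x * pd j (v i) x)) := by
      intro i
      have h2 : ∀ j, (∫ x in cube, lap (v i) x * (b j x * pd i (v j) x))
          - (∫ x in cube, lap (v i) x * (b j x * pd j (v i) x))
          = ∫ x in cube, (lap (v i) x * (b j x * pd i (v j) x)
            - lap (v i) x * (b j x * pd j (v i) x)) := fun j =>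
        (integral_sub ((hv i).lap.mul ((hb j).mul ((hv j).pd i))).int
          ((hv i).lap.mul ((hb j).mul ((hv i).pd j))).int).symm
      simp_rw [h2]
      have h3 : ∀ j, IntegrableOn (fun x => lap (v i) x * (b j x * pd i (v j) x)
            - lap (v i) x * (b j x * pd j (v i) x)) cube := fun j =>
        (((hv i).lap.mul ((hb j).mul ((hv j).pd i))).int).sub
          ((hv i).lap.mul ((hb j).mul ((hv i).pd j))).int
      rw [← integral_finsetSum _ fun j _ => h3 j]
      congr 1
      funext x
      unfold lorentz vm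
      rw [Finset.mul_sum]
      exact Finset.sum_congr rfl fun j _ => by ring
    simp_rw [h1]
    rw [Finset.sum_comm]
    exact Finset.sum_congr rfl fun j _ => Finset.sum_sub_distrib _ _
  rw [e1]
  have i1 := fun j i k => (s1 j i k).int
  have i2 := fun j i k => (s2 j i k).int
  have i3 := fun j i k => (s3 j i k).int
  have i4 := fun j i k => (s4 j i k).int
  unfold tdens
  have itot : ∀ j i k : Fin 3, IntegrableOn (fun x => pd i (b j) x * (pd k (v i) x * pd k (v j) x)
      - pd k (b j) x * (pd k (v i) x * pd i (v j) x)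
      + pd k (b j) x * (pd k (v i) x * pd j (v i) x)
      - 1 / 2 * (pd j (b j) x * (pd k (v i) x * pd k (v i) x))) cube := fun j i k =>
    (((i1 j i k).sub (i2 j i k)).add (i3 j i k)).sub ((i4 j i k).const_mul _)
  rw [integral_finsetSum _ fun j _ => integrable_finsetSum _ fun i _ =>
    integrable_finsetSum _ fun k _ => itot j i k]
  refine Finset.sum_congr rfl fun j _ => ?_
  rw [integral_finsetSum _ fun i _ => integrable_finsetSum _ fun k _ => itot j i k,
    part1 hv hdiv (hb j) j]
  simp_rw [part2 hv (hb j) j]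
  rw [← Finset.sum_sub_distrib]
  refine Finset.sum_congr rfl fun i _ => ?_
  rw [integral_finsetSum _ fun k _ => itot j i k, ← Finset.sum_sub_distrib]
  refine Finset.sum_congr rfl fun k _ => ?_
  have m1 : IntegrableOn (fun x => pd i (b j) x * (pd k (v i) x * pd k (v j) x)
      - pd k (b j) x * (pd k (v i) x * pd i (v j) x)) cube := (i1 j i k).sub (i2 j i k)
  have m2 : IntegrableOn (fun x => pd i (b j) x * (pd k (v i) x * pd k (v j) x)
      - pd k (b j) x * (pd k (v i) x * pd i (v j) x)
      + pd k (b j) x * (pd k (v i) x * pd j (v i) x)) cube := m1.add (i3 j i k)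
  have m3 : IntegrableOn (fun x => 1 / 2 * (pd j (b j) x * (pd k (v i) x * pd k (v i) x))) cube :=
    (i4 j i k).const_mul _
  rw [integral_sub m2 m3, integral_add m1 (i3 j i k), integral_sub (i1 j i k) (i2 j i k),
    integral_const_mul]
  ring

end Pool.Agent.H41N.NL
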