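import Pool.Agent.H41N.NL.Avg
import Pool.Agent.H41N.NL.Prod
import Pool.Agent.W268.NS.Crit

/-!
The bound of the production of enstrophy.
-/

open MeasureTheory Set Filter Topology
open H459R3.NS Pool.Agent.W268.NS
open scoped NNReal ENNReal ContDiff

set_option autoImplicit false

namespace Pool.Agent.H41N.NL

theorem abs_dot_le (a b : V) : |∑ i, a i * b i| ≤ nr a * nr b := by
  unfold nr
  rw [← Real.sqrt_mul (Finset.sum_nonneg fun _ _ => sq_nonneg _)]
  exact Real.abs_le_sqrt (Finset.sum_mul_sq_le_sq_mul_sq _ _ _)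

theorem nr_sq (a : V) : nr a ^ 2 = ∑ i, a i ^ 2 :=
  Real.sq_sqrt (Finset.sum_nonneg fun _ _ => sq_nonneg _)

theorem nr_pos {a : V} (h : a ≠ 0) : 0 < nr a := by
  refine Real.sqrt_pos.2 ?_
  obtain ⟨i, hi⟩ := Function.ne_iff.1 h
  have h1 : 0 < a i ^ 2 := by
    have : a i ≠ 0 := hi
    positivity
  exact h1.trans_le (Finset.single_le_sum (f := fun i => a i ^ 2) (fun _ _ => sq_nonneg _)
    (Finset.mem_univ i))

/-- The cost `A |dx| + M (|dx| - dx · J / |J|)`. -/
noncomputable def wgt (A M : V → ℝ) (J : V → V) (x e : V) : ℝ :=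
  A x * nr e + M x * (nr e - (∑ i, e i * J x i) / nr (J x))

theorem isCost {A M : V → ℝ} {J : V → V} (hA : Continuous A) (hM : Continuous M)
    (hJ : Continuous J) (hA0 : ∀ x, 0 ≤ A x) (hM0 : ∀ x, 0 ≤ M x) :
    IsCost A (fun x => A x + 2 * M x) J (wgt A M J) := by
  have hdot : ∀ x e, |(∑ i, e i * J x i) / nr (J x)| ≤ nr e := by
    intro x e
    rw [abs_div, abs_of_nonneg (nr_nonneg (J x))]
    by_cases h0 : nr (J x) = 0
    · rw [h0, div_zero]
      exact nr_nonneg e
    · have h1 : 0 < nr (J x) := lt_of_le_of_ne (nr_nonneg _) (Ne.symm h0)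
      rw [div_le_iff₀ h1]
      exact abs_dot_le e (J x)
  refine ⟨fun x e => ?_, fun x e t ht => ?_, fun x e => ?_, hA.add (continuous_const.mul hM),
    fun x hx ε hε => ?_⟩
  · have h1 := (abs_le.1 (hdot x e)).2
    have h2 := mul_nonneg (hM0 x) (by linarith : 0 ≤ nr e - (∑ i, e i * J x i) / nr (J x))
    have h3 := mul_nonneg (hA0 x) (nr_nonneg e)
    unfold wgt
    linarith
  · unfold wgt
    rw [nr_smul t ht]
    have : ∑ i, (t • e) i * J x i = t * ∑ i, e i * J x i := by
      rw [Finset.mul_sum]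
      exact Finset.sum_congr rfl fun i _ => by
        rw [Pi.smul_apply, smul_eq_mul]
        ring
    rw [this]
    ring
  · have h1 := (abs_le.1 (hdot x e)).1
    have h2 := mul_le_mul_of_nonneg_left
      (by linarith : nr e - (∑ i, e i * J x i) / nr (J x) ≤ 2 * nr e) (hM0 x)
    unfold wgt
    linarith
  · -- continuity at `x`
    have h0 : 0 < nr (J x) := nr_pos hx
    have hcJ : ∀ i, Continuous fun y => J y i := fun i => (continuous_apply i).comp hJ
    have hnr : Continuous fun y => nr (J y) := continuous_nr hcJ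
    have hc : ContinuousAt (fun y => wgt A M J y (J x)) x := by
      unfold wgt
      refine (hA.continuousAt.mul continuousAt_const).add (hM.continuousAt.mul
        (continuousAt_const.sub (ContinuousAt.div ?_ hnr.continuousAt h0.ne')))
      exact (continuous_finsetSum _ fun i _ => continuous_const.mul (hcJ i)).continuousAt
    have hval : wgt A M J x (J x) = A x * nr (J x) := by
      unfold wgt
      have : ∑ i, J x i * J x i = nr (J x) ^ 2 := by
        rw [nr_sq]
        exact Finset.sum_congr rfl fun i _ => (sq _).symm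
      rw [this]
      field_simp
      ring
    have hc2 : Tendsto (fun r : ℝ => wgt A M J (x + r • J x) (J x)) (𝓝 0) (𝓝 (A x * nr (J x))) := by
      rw [← hval]
      have h1 : Tendsto (fun r : ℝ => x + r • J x) (𝓝 0) (𝓝 x) := by
        have := (continuous_ray x (J x)).tendsto (0 : ℝ)
        rwa [zero_smul, add_zero] at this
      exact hc.tendsto.comp h1
    exact ((hc2.eventually (gt_mem_nhds (by linarith : A x * nr (J x) < A x * nr (J x) + ε))).mono
      fun r hr => le_of_lt hr).filter_mono nhdsWithin_le_nhds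

section

/-- `|∇v|` -/
noncomputable def gn (v : V → V) (x : V) : ℝ := Real.sqrt (gradSq v x)

variable {v : V → V} (hv : ∀ i, SP (fun y => v y i))

theorem gradSq_nonneg (v : V → V) (x : V) : 0 ≤ gradSq v x :=
  Finset.sum_nonneg fun _ _ => Finset.sum_nonneg fun _ _ => sq_nonneg _

theorem gn_nonneg (v : V → V) (x : V) : 0 ≤ gn v x := Real.sqrt_nonneg _

theorem gn_sq (v : V → V) (x : V) : gn v x ^ 2 = gradSq v x := Real.sq_sqrt (gradSq_nonneg v x)

theorem abs_pd_le_gn (v : V → V) (i j : Fin 3) (x : V) : |pd i (fun y => v y j) x| ≤ gn v x := by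
  refine Real.abs_le_sqrt ?_
  have h1 : gradM v x i j ^ 2 ≤ ∑ j, gradM v x i j ^ 2 :=
    Finset.single_le_sum (f := fun j => gradM v x i j ^ 2) (fun _ _ => sq_nonneg _)
      (Finset.mem_univ j)
  exact h1.trans (Finset.single_le_sum (f := fun i => ∑ j, gradM v x i j ^ 2)
    (fun _ _ => Finset.sum_nonneg fun _ _ => sq_nonneg _) (Finset.mem_univ i))

theorem abs_vm_le (v : V → V) (k j : Fin 3) (x : V) :
    |vm (fun i y => v y i) k j x| ≤ 2 * gn v x := by
  unfold vm
  have h1 := abs_pd_le_gn v k j x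
  have h2 := abs_pd_le_gn v j k x
  have h3 := abs_sub (pd k (fun y => v y j) x) (pd j (fun y => v y k) x)
  linarith

include hv in
theorem cont_gradSq : Continuous (gradSq v) :=
  continuous_finsetSum _ fun i _ => continuous_finsetSum _ fun j _ => (sp_grad hv i j).cont.pow 2

include hv in
theorem cont_gn : Continuous (gn v) := (cont_gradSq hv).sqrt

include hv in
theorem cont_lapv : Continuous (lapv v) := continuous_pi fun i => (hv i).lap.cont

include hv in
theorem cont_nrlap : Continuous fun x => nr (lapv v x) :=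
  continuous_nr fun j => (hv j).lap.cont

include hv in
theorem nrm_gn {G H : ℝ} (ha : GH2 (fun i x => v x i) G H) : nrm (gn v) ≤ G := by
  have h1 : nrm (gn v) ^ 2 ≤ G ^ 2 := by
    rw [nrm_sq]
    simp_rw [gn_sq]
    refine le_trans (le_of_eq ?_) ha.g
    have e0 : ∀ x, gradSq v x = ∑ i, ∑ j, pd i (fun y => v y j) x ^ 2 := fun x => rfl
    simp_rw [e0]
    have c1 : ∀ i j : Fin 3, IntegrableOn (fun x => pd i (fun y => v y j) x ^ 2) cube :=
      fun i j => integrableOn_cube (((hv j).pd i).cont.pow 2)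
    rw [integral_finsetSum _ fun i _ => integrable_finsetSum _ fun j _ => c1 i j]
    have e : ∀ i, ∫ x in cube, ∑ j, pd i (fun y => v y j) x ^ 2
        = ∑ j, ∫ x in cube, pd i (fun y => v y j) x ^ 2 :=
      fun i => integral_finsetSum _ fun j _ => c1 i j
    simp_rw [e]
    rw [Finset.sum_comm]
  exact (pow_le_pow_iff_left₀ (nrm_nonneg _) ha.g0 (by norm_num)).1 h1

include hv in
theorem nrm_lapv {G H : ℝ} (ha : GH2 (fun i x => v x i) G H) :
    nrm (fun x => nr (lapv v x)) ≤ H := by
  have h1 : nrm (fun x => nr (lapv v x)) ^ 2 ≤ H ^ 2 := by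
    rw [nrm_sq]
    simp_rw [nr_sq]
    refine le_trans (le_of_eq ?_) ha.h
    have c1 : ∀ i : Fin 3, IntegrableOn (fun x => lapv v x i ^ 2) cube :=
      fun i => integrableOn_cube ((hv i).lap.cont.pow 2)
    rw [integral_finsetSum _ fun i _ => c1 i]
    rfl
  exact (pow_le_pow_iff_left₀ (nrm_nonneg _) ha.h0 (by norm_num)).1 h1

include hv in
theorem int_lapv_sq {G H : ℝ} (ha : GH2 (fun i x => v x i) G H) :
    ∫ x in cube, nr (lapv v x) ^ 2 ≤ H ^ 2 := by
  rw [← nrm_sq]
  exact pow_le_pow_left₀ (nrm_nonneg _) (nrm_lapv hv ha) 2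

end

end Pool.Agent.H41N.NL
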