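import Pool.Agent.H41N.NL.Est

/-!
The bound of the production of enstrophy, continued.
-/

open MeasureTheory Set Filter Topology
open H459R3.NS Pool.Agent.W268.NS
open scoped NNReal ENNReal ContDiff

set_option autoImplicit false

namespace Pool.Agent.H41N.NL

theorem th_half {p : ℝ≥0∞} : th (p / 2) = 2 * th p := by
  unfold th
  rw [ENNReal.inv_div (Or.inl (by norm_num)) (Or.inl (by norm_num)), div_eq_mul_inv,
    ENNReal.toReal_mul]
  simp
  ring

theorem half_lt {p : ℝ≥0∞} (hp : 3 < p) : 3 / 2 < p / 2 :=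
  ENNReal.div_lt_div_right (by norm_num) (by norm_num) hp

theorem three_half_lt {p : ℝ≥0∞} (hp : 3 < p) : 3 / 2 < p := by
  refine lt_trans ?_ hp
  rw [ENNReal.div_lt_iff (Or.inl (by norm_num)) (Or.inl (by norm_num))]
  norm_num

theorem eLpNorm_sq {p : ℝ≥0∞} {f : V → ℝ} {β : ℝ} (hβ : 0 ≤ β)
    (h : eLpNorm f p (volume.restrict cube) ≤ ENNReal.ofReal β) :
    eLpNorm (fun x => f x ^ 2) (p / 2) (volume.restrict cube) ≤ ENNReal.ofReal (β ^ 2) := by
  have h1 := eLpNorm_norm_rpow (p := p / 2) (μ := volume.restrict cube) f (q := 2) (by norm_num)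
  have e1 : (fun x => ‖f x‖ ^ (2 : ℝ)) = fun x => f x ^ 2 := by
    funext x
    rw [Real.norm_eq_abs, Real.rpow_two, sq_abs]
  have e2 : p / 2 * ENNReal.ofReal 2 = p := by
    rw [ENNReal.ofReal_ofNat]
    exact ENNReal.div_mul_cancel (by norm_num) (by norm_num)
  rw [e1, e2] at h1
  rw [h1, ENNReal.ofReal_pow hβ]
  rw [ENNReal.rpow_two]
  exact pow_le_pow_left' h 2

variable {v : V → V}

/-- `∫ f |∇v| |Δv|` -/
theorem int_fal {p : ℝ≥0∞} (hp : 3 < p) : ∃ C : ℝ, 0 ≤ C ∧ ∀ (f : V → ℝ) (v : V → V) (G H β : ℝ),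
    Continuous f → 0 ≤ β → eLpNorm f p (volume.restrict cube) ≤ ENNReal.ofReal β →
      GH2 (fun i x => v x i) G H →
      ∫ x in cube, f x * gn v x * nr (lapv v x) ≤ C * (β * (G ^ (1 - th p) * H ^ th p * H)) := by
  obtain ⟨C, hC0, hC⟩ := int_pot (half_lt hp)
  refine ⟨Real.sqrt C, Real.sqrt_nonneg _, fun f v G H β hf hβ hfβ ha => ?_⟩
  have hv : ∀ i, SP (fun y => v y i) := ha.sp
  have h1 := (hC (fun x => f x ^ 2) v G H (β ^ 2) (hf.pow 2).aestronglyMeasurable
    (by positivity) (eLpNorm_sq hβ hfβ) ha).2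
  rw [th_half] at h1
  have hX0 : 0 ≤ β * (G ^ (1 - th p) * H ^ th p) :=
    mul_nonneg hβ (mul_nonneg (Real.rpow_nonneg ha.g0 _) (Real.rpow_nonneg ha.h0 _))
  have e1 : β ^ 2 * (G ^ (2 - 2 * th p) * H ^ (2 * th p)) = (β * (G ^ (1 - th p) * H ^ th p)) ^ 2 := by
    rw [mul_pow, mul_pow, ← Real.rpow_natCast (G ^ (1 - th p)) 2,
      ← Real.rpow_natCast (H ^ th p) 2, ← Real.rpow_mul ha.g0, ← Real.rpow_mul ha.h0]
    congr 3 <;> push_cast <;> ring
  rw [e1] at h1
  have h2 : nrm (fun x => f x * gn v x) ≤ Real.sqrt C * (β * (G ^ (1 - th p) * H ^ th p)) := by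
    have h3 : nrm (fun x => f x * gn v x) ^ 2
        ≤ (Real.sqrt C * (β * (G ^ (1 - th p) * H ^ th p))) ^ 2 := by
      rw [nrm_sq, mul_pow, Real.sq_sqrt hC0]
      refine le_trans (le_of_eq ?_) h1
      congr 1
      funext x
      rw [mul_pow, gn_sq]
    exact (pow_le_pow_iff_left₀ (nrm_nonneg _)
      (mul_nonneg (Real.sqrt_nonneg _) hX0) (by norm_num)).1 h3
  have h4 := (le_abs_self _).trans (abs_int_mul_le (f := fun x => f x * gn v x)
    (g := fun x => nr (lapv v x)) (hf.mul (cont_gn hv)) (cont_nrlap hv))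
  refine h4.trans ?_
  calc nrm (fun x => f x * gn v x) * nrm (fun x => nr (lapv v x))
      ≤ (Real.sqrt C * (β * (G ^ (1 - th p) * H ^ th p))) * H :=
        mul_le_mul h2 (nrm_lapv hv ha) (nrm_nonneg _) (mul_nonneg (Real.sqrt_nonneg _) hX0)
    _ = _ := by ring

/-- the transport term -/
theorem abs_tdens_le (v b : V → V) (x : V) :
    |tdens (fun i y => v y i) (fun i y => b y i) x|
      ≤ 95 * ∑ i, ∑ j, |pd i (fun y => b y j) x| * gradSq v x := by
  set R : ℝ := ∑ i, ∑ j, |pd i (fun y => b y j) x| with hR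
  have hR0 : 0 ≤ R := Finset.sum_nonneg fun _ _ => Finset.sum_nonneg fun _ _ => abs_nonneg _
  have hRle : ∀ i j, |pd i (fun y => b y j) x| ≤ R := by
    intro i j
    have h1 : |pd i (fun y => b y j) x| ≤ ∑ j, |pd i (fun y => b y j) x| :=
      Finset.single_le_sum (f := fun j => |pd i (fun y => b y j) x|) (fun _ _ => abs_nonneg _)
        (Finset.mem_univ j)
    exact h1.trans (Finset.single_le_sum (f := fun i => ∑ j, |pd i (fun y => b y j) x|)
      (fun _ _ => Finset.sum_nonneg fun _ _ => abs_nonneg _) (Finset.mem_univ i))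
  have hg : ∀ i j k l, |pd i (fun y => v y j) x * pd k (fun y => v y l) x| ≤ gradSq v x := by
    intro i j k l
    rw [abs_mul, ← gn_sq, sq]
    exact mul_le_mul (abs_pd_le_gn v i j x) (abs_pd_le_gn v k l x) (abs_nonneg _) (gn_nonneg v x)
  have ht : ∀ i j k l m n, |pd i (fun y => b y j) x * (pd k (fun y => v y l) x
      * pd m (fun y => v y n) x)| ≤ R * gradSq v x := by
    intro i j k l m n
    rw [abs_mul]
    exact mul_le_mul (hRle i j) (hg k l m n) (abs_nonneg _) hR0
  have e1 : ∑ i, ∑ j, |pd i (fun y => b y j) x| * gradSq v x = R * gradSq v x := by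
    rw [hR, Finset.sum_mul]
    exact Finset.sum_congr rfl fun i _ => by rw [Finset.sum_mul]
  rw [e1]
  unfold tdens
  have h4 : ∀ j i k : Fin 3, |pd i (fun y => b y j) x * (pd k (fun y => v y i) x
        * pd k (fun y => v y j) x)
      - pd k (fun y => b y j) x * (pd k (fun y => v y i) x * pd i (fun y => v y j) x)
      + pd k (fun y => b y j) x * (pd k (fun y => v y i) x * pd j (fun y => v y i) x)
      - 1 / 2 * (pd j (fun y => b y j) x * (pd k (fun y => v y i) x * pd k (fun y => v y i) x))|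
      ≤ 7 / 2 * (R * gradSq v x) := by
    intro j i k
    have a1 := abs_le.1 (ht i j k i k j)
    have a2 := abs_le.1 (ht k j k i i j)
    have a3 := abs_le.1 (ht k j k i j i)
    have a4 := abs_le.1 (ht j j k i k i)
    rw [abs_le]
    constructor <;> linarith [a1.1, a1.2, a2.1, a2.2, a3.1, a3.2, a4.1, a4.2]
  have h5 : |∑ j, ∑ i, ∑ k, (pd i (fun y => b y j) x * (pd k (fun y => v y i) x
        * pd k (fun y => v y j) x)
      - pd k (fun y => b y j) x * (pd k (fun y => v y i) x * pd i (fun y => v y j) x)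
      + pd k (fun y => b y j) x * (pd k (fun y => v y i) x * pd j (fun y => v y i) x)
      - 1 / 2 * (pd j (fun y => b y j) x * (pd k (fun y => v y i) x * pd k (fun y => v y i) x)))|
      ≤ 3 * (3 * (3 * (7 / 2 * (R * gradSq v x)))) :=
    abs_sum3 fun j => abs_sum3 fun i => abs_sum3 fun k => h4 j i k
  have h6 : 0 ≤ R * gradSq v x := mul_nonneg hR0 (gradSq_nonneg v x)
  linarith

end Pool.Agent.H41N.NL
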