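import Pool.Agent.H41N.NL.Crit
import Pool.Agent.H459R3.NS.High2

/-!
The criterion with closed curves which are carried along by a velocity field.
-/

open MeasureTheory Set Filter Topology
open H459R3.NS Pool.Agent.W268.NS
open scoped NNReal ENNReal ContDiff

set_option autoImplicit false

namespace Pool.Agent.H41N.NL

theorem slip_eq (v b : V → V) : slip v b = Lf v b := by
  funext x i
  unfold slip Lf curl vm
  rw [cross_apply]
  fin_cases i
  · simp [Fin.sum_univ_three]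
    ring
  · simp [Fin.sum_univ_three]
    ring
  · simp [Fin.sum_univ_three]
    ring

theorem weight_eq (K κ ν : ℝ) (f g : V → ℝ) (v b : V → V) :
    weight K κ ν f g v b = wf K κ ν f g v b := by
  funext x e
  unfold weight wf wgt Af Mf
  have e1 : gradNorm v x = gn v x := rfl
  have e2 : nr (fun j => -lap (fun y => v y j) x) = nr (lapv v x) := by
    have : (fun j => -lap (fun y => v y j) x) = -lapv v x := rfl
    rw [this, nr_neg]
  rw [e1, e2]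
  have e3 : ∑ i, e i * -lapv v x i = ∑ i, e i * -lap (fun y => v y i) x := rfl
  rw [e3]
  ring

theorem eLpNorm_nr_add {v b : V → V} (hv : ∀ i, SP (fun y => v y i))
    (hb : ∀ i, SP (fun y => b y i)) {E η : ℝ} (hE : 0 ≤ E) (hη : 0 ≤ η) (h1 : energy v ≤ E)
    (h2 : energy b ≤ η ^ 2) :
    eLpNorm (fun x => nr (v x) + nr (b x)) 2 (volume.restrict cube)
      ≤ ENNReal.ofReal (Real.sqrt E + η) := by
  have key : ∀ {a : V → V} (_ : ∀ i, SP (fun y => a y i)) {c : ℝ}, 0 ≤ c → energy a ≤ c ^ 2 →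
      eLpNorm (fun x => nr (a x)) 2 (volume.restrict cube) ≤ ENNReal.ofReal c := by
    intro a ha c hc hac
    rw [eLpNorm_two (continuous_nr fun i => (ha i).cont)]
    refine ENNReal.ofReal_le_ofReal ?_
    have h3 : nrm (fun x => nr (a x)) ^ 2 ≤ c ^ 2 := by
      rw [nrm_sq]
      simp_rw [nr_sq]
      refine le_trans (le_of_eq ?_) hac
      have c1 : ∀ i : Fin 3, IntegrableOn (fun x => a x i ^ 2) cube :=
        fun i => integrableOn_cube ((ha i).cont.pow 2)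
      rw [integral_finsetSum _ fun i _ => c1 i]
      rfl
    exact (pow_le_pow_iff_left₀ (nrm_nonneg _) hc (by norm_num)).1 h3
  have h3 := key hv (Real.sqrt_nonneg E) (by rw [Real.sq_sqrt hE]; exact h1)
  have h4 := key hb hη h2
  have h5 := eLpNorm_add_le (μ := volume.restrict cube) (p := 2)
    (f := fun x => nr (v x)) (g := fun x => nr (b x))
    (continuous_nr fun i => (hv i).cont).aestronglyMeasurable
    (continuous_nr fun i => (hb i).cont).aestronglyMeasurable (by norm_num)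
  refine h5.trans ((add_le_add h3 h4).trans (le_of_eq ?_))
  rw [ENNReal.ofReal_add (Real.sqrt_nonneg _) hη]

theorem criterion {p s : ℝ≥0∞} (hp : 3 < p) (hs : 3 / 2 < s) {q r : ℝ}
    (hpq : 3 * (p⁻¹).toReal + 2 / q = 1) (hsr : 3 * (s⁻¹).toReal + 2 / r = 2) {ν κ K d : ℝ}
    (hν : 0 < ν) (hκ0 : 0 ≤ κ) (hκ : κ < 1) (hK : 0 ≤ K) (hd : 0 < d) :
    ∃ C : ℝ, 0 ≤ C ∧ ∀ (T : ℝ) (u : ℝ → V → V) (P : ℝ → V → ℝ) (β γ η ρ : ℝ → ℝ),
      IsSol ν T u P → (∀ t ∈ Ioo 0 T, 0 ≤ β t ∧ 0 ≤ γ t ∧ 0 ≤ η t ∧ 0 ≤ ρ t) →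
      IntegrableOn (fun t => β t ^ q) (Ioo 0 T) → IntegrableOn (fun t => γ t ^ r) (Ioo 0 T) →
      IntegrableOn (fun t => η t ^ 4) (Ioo 0 T) → IntegrableOn (fun t => ρ t ^ 2) (Ioo 0 T) →
      (∀ t ∈ Ioo 0 T, ∃ (b : V → V) (f g : V → ℝ), SPV b ∧
        (Continuous f ∧ Per f ∧ ∀ x, 0 ≤ f x) ∧ (Continuous g ∧ Per g ∧ ∀ x, 0 ≤ g x) ∧
        eLpNorm f p (volume.restrict cube) ≤ ENNReal.ofReal (β t) ∧
        (∀ i j, eLpNorm (pd i (fun y => b y j)) s (volume.restrict cube)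
          ≤ ENNReal.ofReal (γ t)) ∧
        energy b ≤ η t ^ 2 ∧ ∫ x in cube, g x ^ 2 ≤ ρ t ^ 2 ∧
        Loops d (slip (u t) b) (weight K κ ν f g (u t) b)) →
      (∀ t ∈ Ico 0 T, enstrophy (u t) + 1 ≤ (enstrophy (u 0) + 1) * Real.exp
        (C * (T * (1 + energy (u 0) ^ 2) + (∫ τ in Ioo 0 T, β τ ^ q) + (∫ τ in Ioo 0 T, γ τ ^ r)
          + (∫ τ in Ioo 0 T, η τ ^ 4) + ∫ τ in Ioo 0 T, ρ τ ^ 2))) ∧
      ∃ M, ∀ t ∈ Ico 0 T, ∀ x i, |u t x i| ≤ M := by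
  obtain ⟨C0, hC00, hC0⟩ := prod_bound hp hs hK hκ0 hν.le hd
  obtain ⟨D, hD0, hD⟩ := absorb hp hs hpq hsr hν hκ hC00
  refine ⟨8 * D, by positivity, fun T u P β γ η ρ h hpos hβi hγi hηi hρi hcomp => ?_⟩
  set E : ℝ := energy (u 0) with hE
  have hE0 : 0 ≤ E := energy_nonneg _
  have hβ0 : ∀ t ∈ Ioo 0 T, 0 ≤ β t ^ q := fun t ht => Real.rpow_nonneg (hpos t ht).1 q
  have hγ0 : ∀ t ∈ Ioo 0 T, 0 ≤ γ t ^ r := fun t ht => Real.rpow_nonneg (hpos t ht).2.1 r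
  set F : ℝ → ℝ := fun t => (1 + 8 * E ^ 2) + 8 * η t ^ 4 + β t ^ q + γ t ^ r + ρ t ^ 2 with hF
  set g0 : ℝ → ℝ := fun t => D * F t with hg0
  have hF0 : ∀ t ∈ Ioo 0 T, 0 ≤ F t := by
    intro t ht
    have h1 := hβ0 t ht
    have h2 := hγ0 t ht
    simp only [hF]
    positivity
  rcases le_or_gt T 0 with hT | hT
  · exact ⟨fun t ht => absurd (ht.1.trans_lt ht.2) (not_lt.2 hT), 0, fun t ht =>
      absurd (ht.1.trans_lt ht.2) (not_lt.2 hT)⟩
  have hFi : IntegrableOn F (Ioo 0 T) := by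
    have c1 : IntegrableOn (fun _ : ℝ => (1 + 8 * E ^ 2 : ℝ)) (Ioo 0 T) :=
      integrableOn_const (by simp)
    exact (((c1.add (hηi.const_mul 8)).add hβi).add hγi).add hρi
  have hFi' : ∀ t ∈ Ico 0 T, IntegrableOn g0 (Icc 0 t) := by
    intro t ht
    rw [integrableOn_Icc_iff_integrableOn_Ioc, integrableOn_Ioc_iff_integrableOn_Ioo]
    exact (hFi.mono_set (Ioo_subset_Ioo_right ht.2.le)).const_mul _
  have hint : ∫ t in Ioo 0 T, F t = T * (1 + 8 * E ^ 2) + 8 * (∫ t in Ioo 0 T, η t ^ 4)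
      + (∫ t in Ioo 0 T, β t ^ q) + (∫ t in Ioo 0 T, γ t ^ r) + ∫ t in Ioo 0 T, ρ t ^ 2 := by
    have c1 : IntegrableOn (fun _ : ℝ => (1 + 8 * E ^ 2 : ℝ)) (Ioo 0 T) :=
      integrableOn_const (by simp)
    have c2 : IntegrableOn (fun t : ℝ => (1 + 8 * E ^ 2) + 8 * η t ^ 4) (Ioo 0 T) :=
      c1.add (hηi.const_mul 8)
    have c3 : IntegrableOn (fun t : ℝ => (1 + 8 * E ^ 2) + 8 * η t ^ 4 + β t ^ q) (Ioo 0 T) :=
      c2.add hβi
    have c4 : IntegrableOn (fun t : ℝ => (1 + 8 * E ^ 2) + 8 * η t ^ 4 + β t ^ q + γ t ^ r)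
      (Ioo 0 T) := c3.add hγi
    rw [hF, integral_add c4 hρi, integral_add c3 hγi, integral_add c2 hβi,
      integral_add c1 (hηi.const_mul 8), integral_const_mul]
    congr 4
    rw [setIntegral_const, Real.volume_real_Ioo_of_le hT.le, sub_zero, smul_eq_mul]
  refine gron_source h hν (g := g0) (δ := 1 - κ) (by linarith)
    (fun t ht => mul_nonneg hD0 (hF0 t ht)) hFi' (fun t ht => ?_) (fun τ hτ => ?_)
  · -- the integral
    have a1 : ∫ s in (0 : ℝ)..t, g0 s ≤ ∫ s in Ioo 0 T, g0 s := by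
      rw [intervalIntegral.integral_of_le ht.1, integral_Ioc_eq_integral_Ioo]
      refine setIntegral_mono_set (hFi.const_mul D) ?_ (Ioo_subset_Ioo_right ht.2.le).eventuallyLE
      filter_upwards [ae_restrict_mem measurableSet_Ioo] with s hs
      exact mul_nonneg hD0 (hF0 s hs)
    refine a1.trans ?_
    have a2 : ∫ s in Ioo 0 T, g0 s = D * ∫ s in Ioo 0 T, F s := by
      rw [← integral_const_mul]
    rw [a2, hint]
    have b1 : 0 ≤ ∫ s in Ioo 0 T, β s ^ q :=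
      setIntegral_nonneg measurableSet_Ioo fun s hs => hβ0 s hs
    have b2 : 0 ≤ ∫ s in Ioo 0 T, γ s ^ r :=
      setIntegral_nonneg measurableSet_Ioo fun s hs => hγ0 s hs
    have b3 : 0 ≤ ∫ s in Ioo 0 T, ρ s ^ 2 :=
      setIntegral_nonneg measurableSet_Ioo fun s hs => sq_nonneg _
    have b4 : T * (1 + 8 * E ^ 2) + 8 * (∫ t in Ioo 0 T, η t ^ 4)
      + (∫ t in Ioo 0 T, β t ^ q) + (∫ t in Ioo 0 T, γ t ^ r) + ∫ t in Ioo 0 T, ρ t ^ 2
        ≤ 8 * (T * (1 + E ^ 2) + (∫ τ in Ioo 0 T, β τ ^ q) + (∫ τ in Ioo 0 T, γ τ ^ r)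
          + (∫ τ in Ioo 0 T, η τ ^ 4) + ∫ τ in Ioo 0 T, ρ τ ^ 2) := by
      linarith
    have b5 := mul_le_mul_of_nonneg_left b4 hD0
    linarith
  · -- the differential inequality
    have hI : τ ∈ Ico 0 T := ⟨hτ.1.le, hτ.2⟩
    obtain ⟨b, f, g, hb, ⟨hf, hfp, hf0⟩, ⟨hg, hgp, hg0'⟩, hfβ, hbγ, hbη, hgρ, hloop⟩ := hcomp τ hτ
    obtain ⟨q1, q2, q3, q4⟩ := hpos τ hτ
    set G := Real.sqrt (enstrophy (u τ)) with hG
    set H := Real.sqrt (palin (u τ)) with hH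
    have hG2 : G ^ 2 = enstrophy (u τ) := Real.sq_sqrt (enstrophy_nonneg _)
    have hH2 : H ^ 2 = palin (u τ) := Real.sq_sqrt (palin_nonneg _)
    have hG0 : 0 ≤ G := Real.sqrt_nonneg _
    have hH0 : 0 ≤ H := Real.sqrt_nonneg _
    have ha : GH2 (fun i x => u τ x i) G H :=
      ⟨fun i => h.sp hI i, hG0, hH0, hG2.symm.le, hH2.symm.le⟩
    have hN := eLpNorm_nr_add (fun i => h.sp hI i) (fun i => hb.sp i) hE0 q3
      (h.energy_le hν hI) hbη
    have hnrm : nrm g ≤ ρ τ := by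
      have h3 : nrm g ^ 2 ≤ ρ τ ^ 2 := by
        rw [nrm_sq]
        exact hgρ
      exact (pow_le_pow_iff_left₀ (nrm_nonneg _) q4 (by norm_num)).1 h3
    have hN0 : 0 ≤ Real.sqrt E + η τ := add_nonneg (Real.sqrt_nonneg _) q3
    rw [slip_eq, weight_eq] at hloop
    have h1 := hC0 (u τ) b f g (Real.sqrt E + η τ) (β τ) (γ τ) (ρ τ) G H ha (h.divfree τ hI) hb hf
      hfp hf0 hg hgp hg0' hN0 q1 q2 q4 hfβ hbγ hnrm hN hloop
    have h2 := hD (Real.sqrt E + η τ) (β τ) (γ τ) (ρ τ) G H hN0 q1 q2 q4 hG0 hH0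
    have h3 : (Real.sqrt E + η τ) ^ 4 ≤ 8 * E ^ 2 + 8 * η τ ^ 4 := by
      have h4 : Real.sqrt E ^ 4 = E ^ 2 := by
        have : Real.sqrt E ^ 4 = (Real.sqrt E ^ 2) ^ 2 := by ring
        rw [this, Real.sq_sqrt hE0]
      rw [← h4]
      have h5 := add_pow_le (Real.sqrt_nonneg E) q3 4
      norm_num at h5
      linarith
    have h6 : D * (1 + (Real.sqrt E + η τ) ^ 4 + β τ ^ q + γ τ ^ r + ρ τ ^ 2) * (G ^ 2 + 1)
        ≤ g0 τ * (G ^ 2 + 1) := by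
      refine mul_le_mul_of_nonneg_right ?_ (by positivity)
      simp only [hg0, hF]
      exact mul_le_mul_of_nonneg_left (by linarith) hD0
    rw [← hH2, ← hG2]
    linarith

end Pool.Agent.H41N.NL
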