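import Pool.Agent.H41N.NL.Dist
import Pool.Agent.H459R3.NS.Ibp

/-!
The inequality in a small cube.
-/

open MeasureTheory Set Filter Topology
open H459R3.NS
open scoped NNReal ContDiff

set_option autoImplicit false

namespace Pool.Agent.H41N.NL

variable {c : V} {d : ℝ} {L : V → V} {w : V → V → ℝ} {A B : V → ℝ} {J : V → V}

theorem pd_mul' {f g : V → ℝ} (hf : ContDiff ℝ ∞ f) (hg : ContDiff ℝ ∞ g) (j : Fin 3) (x : V) :
    pd j (fun y => f y * g y) x = f x * pd j g x + pd j f x * g x := by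
  unfold pd
  have h : HasFDerivAt (fun y => f y * g y) _ x :=
    ((hf.differentiable (by norm_cast)) x).hasFDerivAt.mul
      ((hg.differentiable (by norm_cast)) x).hasFDerivAt
  rw [h.fderiv]
  simp only [ContinuousLinearMap.add_apply, smul_apply, smul_eq_mul]
  ring

theorem pd_comm' {f : V → ℝ} (hf : ContDiff ℝ ∞ f) (i j : Fin 3) (x : V) :
    pd i (pd j f) x = pd j (pd i f) x := by
  have h2 : ContDiff ℝ 2 f := hf.of_le (by norm_cast)
  have hs : IsSymmSndFDerivAt ℝ f x := h2.contDiffAt.isSymmSndFDerivAt (by simp)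
  have hd : DifferentiableAt ℝ (fderiv ℝ f) x :=
    ((h2.fderiv_right (m := 1) (by norm_num)).differentiable one_ne_zero) x
  have e : ∀ a b : Fin 3, pd a (pd b f) x
      = fderiv ℝ (fderiv ℝ f) x (Pi.single a 1) (Pi.single b 1) := by
    intro a b
    unfold pd
    have h3 : HasFDerivAt (fun y => fderiv ℝ f y (Pi.single b 1)) _ x :=
      hd.hasFDerivAt.clm_apply (hasFDerivAt_const (Pi.single b (1 : ℝ) : V) x)
    rw [h3.fderiv]
    simp
  rw [e, e]
  exact hs _ _

theorem contDiff_pd {f : V → ℝ} (hf : ContDiff ℝ ∞ f) (j : Fin 3) : ContDiff ℝ ∞ (pd j f) :=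
  (hf.fderiv_right (m := ∞) (by norm_cast)).clm_apply contDiff_const

theorem hasCompactSupport_pd {f : V → ℝ} (hf : HasCompactSupport f) (j : Fin 3) :
    HasCompactSupport (pd j f) :=
  (hf.fderiv (𝕜 := ℝ)).comp_left (g := fun A : V →L[ℝ] ℝ => A (Pi.single j 1)) rfl

theorem tsupport_pd {f : V → ℝ} (j : Fin 3) : tsupport (pd j f) ⊆ tsupport f := by
  refine closure_minimal ?_ (isClosed_tsupport f)
  intro x hx
  refine support_fderiv_subset ℝ (f := f) ?_
  intro h0
  apply hx
  unfold pd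
  rw [h0]
  rfl

/-- The vorticity matrix `∂_k v_j - ∂_j v_k`. -/
noncomputable def vm (v : Fin 3 → V → ℝ) (k j : Fin 3) (x : V) : ℝ := pd k (v j) x - pd j (v k) x

section field

variable {v : Fin 3 → V → ℝ} (hv : ∀ i, SP (v i)) (hdiv : ∀ x, ∑ i, pd i (v i) x = 0)

include hv in
theorem sp_vm (k j : Fin 3) : SP (vm v k j) where
  smooth := ((hv j).pd k).smooth.sub ((hv k).pd j).smooth
  per := fun i x => by
    unfold vm
    rw [((hv j).pd k).per i x, ((hv k).pd j).per i x]

include hv hdiv in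
theorem lap_eq_vm (j : Fin 3) (x : V) : lap (v j) x = ∑ k, pd k (vm v k j) x := by
  have h1 : ∀ k, pd k (vm v k j) x = pd k (pd k (v j)) x - pd j (pd k (v k)) x := by
    intro k
    have h2 : pd k (vm v k j) x = pd k (pd k (v j)) x - pd k (pd j (v k)) x := by
      unfold pd
      have ha := (((hv j).pd k).diff x).hasFDerivAt.sub (((hv k).pd j).diff x).hasFDerivAt
      have hb : HasFDerivAt (vm v k j) _ x := ha
      rw [hb.fderiv]
      rfl
    rw [h2, pd_comm (hv k) k j]
  have h3 : ∑ k, pd j (pd k (v k)) x = 0 := by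
    have e1 : (fun y => ∑ k, pd k (v k) y) = fun _ => 0 := funext hdiv
    rw [← pd_sum (fun k _ => (hv k).pd k) j x, e1]
    unfold pd
    simp
  simp_rw [h1]
  rw [Finset.sum_sub_distrib, h3, sub_zero]
  rfl

include hv hdiv in
/-- `∑ ∂_j (ψ Δv_j) = ∑ ∂_k (∂_j ψ W_kj)` -/
theorem div_psi_lap {ψ : V → ℝ} (hψ : ContDiff ℝ ∞ ψ) (x : V) :
    ∑ j, pd j (fun y => ψ y * lap (v j) y) x
      = ∑ j, ∑ k, pd k (fun y => pd j ψ y * vm v k j y) x := by
  have h1 : ∀ j, pd j (fun y => ψ y * lap (v j) y) x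
      = ψ x * pd j (lap (v j)) x + pd j ψ x * lap (v j) x := fun j =>
    pd_mul' hψ (hv j).lap.smooth j x
  have h2 : ∀ j k, pd k (fun y => pd j ψ y * vm v k j y) x
      = pd j ψ x * pd k (vm v k j) x + pd k (pd j ψ) x * vm v k j x := fun j k =>
    pd_mul' (contDiff_pd hψ j) (sp_vm hv k j).smooth k x
  simp_rw [h1, h2]
  rw [Finset.sum_add_distrib]
  have h3 : ∑ j, ψ x * pd j (lap (v j)) x = 0 := by
    rw [← Finset.mul_sum, div_lap hv hdiv, mul_zero]
  have h4 : ∑ j, ∑ k, pd k (pd j ψ) x * vm v k j x = 0 := by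
    have e1 : ∑ j, ∑ k, pd k (pd j ψ) x * vm v k j x
        = -∑ j, ∑ k, pd k (pd j ψ) x * vm v k j x := by
      conv_rhs => rw [Finset.sum_comm]
      rw [← Finset.sum_neg_distrib]
      refine Finset.sum_congr rfl fun j _ => ?_
      rw [← Finset.sum_neg_distrib]
      refine Finset.sum_congr rfl fun k _ => ?_
      rw [pd_comm' hψ k j x]
      unfold vm
      ring
    linarith
  rw [h3, zero_add]
  simp_rw [Finset.sum_add_distrib]
  rw [h4, add_zero]
  refine Finset.sum_congr rfl fun j _ => ?_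
  rw [lap_eq_vm hv hdiv j x, Finset.mul_sum]

include hv hdiv in
theorem local_le (hd : 0 < d) (hL : Continuous L) (hA : Continuous A)
    (hJ : ∀ x j, J x j = -lap (v j) x) (hw : IsCost A B J w)
    (h : LoopsIn c d L w) {ψ : V → ℝ} (hψ : ContDiff ℝ ∞ ψ) (hψ0 : ∀ x, 0 ≤ ψ x)
    (hψc : HasCompactSupport ψ) (hsub : tsupport ψ ⊆ Open c d) :
    ∫ x, ψ x * ∑ j, L x j * J x j ≤ (∫ x, ψ x * (A x * nr (J x)))
      + ∑ j, ∑ k, ∫ x, |pd j ψ x| * (|vm v k j x| * (|L x k| + B x)) := by
  obtain ⟨φ, Kφ, hφl, hdist⟩ := exists_pot hd hL hw h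
  have hφ := hφl.continuous
  have hcL : ∀ j, Continuous fun x => L x j := fun j => (continuous_apply j).comp hL
  have hcl : ∀ j, Continuous (lap (v j)) := fun j => (hv j).lap.cont
  have hcJ : ∀ j, Continuous fun x => J x j := fun j => by
    simp_rw [hJ]
    exact (hcl j).neg
  have hcnr : Continuous fun x => nr (J x) := by
    unfold nr
    exact (continuous_finsetSum _ fun j _ => (hcJ j).pow 2).sqrt
  have hcv : ∀ k j, Continuous (vm v k j) := fun k j => (sp_vm hv k j).cont
  have hcψ := hψ.continuous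
  -- the functions
  have s1 : ∀ j, ContDiff ℝ ∞ fun y => ψ y * lap (v j) y := fun j => hψ.mul (hv j).lap.smooth
  have c1 : ∀ j, HasCompactSupport fun y => ψ y * lap (v j) y := fun j => hψc.mul_right
  have s2 : ∀ j k, ContDiff ℝ ∞ fun y => pd j ψ y * vm v k j y := fun j k =>
    (contDiff_pd hψ j).mul (sp_vm hv k j).smooth
  have c2 : ∀ j k, HasCompactSupport fun y => pd j ψ y * vm v k j y := fun j k =>
    (hasCompactSupport_pd hψc j).mul_right
  have t2 : ∀ j k, tsupport (fun y => pd j ψ y * vm v k j y) ⊆ Open c d := fun j k =>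
    (tsupport_mul_subset_left).trans ((tsupport_pd j).trans hsub)
  have b1 := fun j => int_lip hφl ((s1 j).of_le (by norm_cast)) (c1 j) j
  have b2 := fun j k => int_lip hφl ((s2 j k).of_le (by norm_cast)) (c2 j k) k
  -- the integral of `φ` against the divergence
  have e1 : ∑ j, ∫ x, φ x * pd j (fun y => ψ y * lap (v j) y) x
      = ∑ j, ∑ k, ∫ x, φ x * pd k (fun y => pd j ψ y * vm v k j y) x := by
    have i1 : ∀ j, Integrable (fun x => φ x * pd j (fun y => ψ y * lap (v j) y) x) volume :=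
      fun j => (hφ.mul (contDiff_pd (s1 j) j).continuous).integrable_of_hasCompactSupport
        (hasCompactSupport_pd (c1 j) j).mul_left
    have i2 : ∀ j k, Integrable (fun x => φ x * pd k (fun y => pd j ψ y * vm v k j y) x) volume :=
      fun j k => (hφ.mul (contDiff_pd (s2 j k) k).continuous).integrable_of_hasCompactSupport
        (hasCompactSupport_pd (c2 j k) k).mul_left
    rw [← integral_finsetSum _ fun j _ => i1 j]
    simp_rw [← integral_finsetSum _ fun k _ => i2 _ k]
    rw [← integral_finsetSum _ fun j _ => integrable_finsetSum _ fun k _ => i2 j k]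
    congr 1
    funext x
    simp_rw [← Finset.mul_sum]
    rw [div_psi_lap hv hdiv hψ x]
  -- the derivative of `φ` in the direction `J`
  have e2 : ∀ x, ψ x * fderiv ℝ φ x (J x)
      = -∑ j, fderiv ℝ φ x (Pi.single j 1) * (ψ x * lap (v j) x) := by
    intro x
    have h1 : fderiv ℝ φ x (J x) = ∑ j, J x j * fderiv ℝ φ x (Pi.single j 1) := by
      conv_lhs => rw [← Finset.univ_sum_single (J x)]
      rw [map_sum]
      refine Finset.sum_congr rfl fun j _ => ?_
      have : (Pi.single j (J x j) : V) = J x j • Pi.single j (1 : ℝ) := by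
        rw [← Pi.single_smul, smul_eq_mul, mul_one]
      rw [this, map_smul, smul_eq_mul]
    rw [h1, Finset.mul_sum, ← Finset.sum_neg_distrib]
    refine Finset.sum_congr rfl fun j _ => ?_
    rw [hJ]
    ring
  have iφ : Integrable (fun x => ψ x * fderiv ℝ φ x (J x)) volume := by
    simp_rw [e2]
    exact (integrable_finsetSum _ fun j _ => (b1 j).1).neg
  have e3 : ∫ x, ψ x * fderiv ℝ φ x (J x)
      = -∑ j, ∑ k, ∫ x, fderiv ℝ φ x (Pi.single k 1) * (pd j ψ x * vm v k j x) := by
    simp_rw [e2]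
    rw [integral_neg, integral_finsetSum _ fun j _ => (b1 j).1]
    have h1 : ∀ j, ∫ x, fderiv ℝ φ x (Pi.single j 1) * (ψ x * lap (v j) x)
        = -∫ x, φ x * pd j (fun y => ψ y * lap (v j) y) x := fun j => by
      rw [(b1 j).2, neg_neg]
    have h2 : ∀ j k, ∫ x, fderiv ℝ φ x (Pi.single k 1) * (pd j ψ x * vm v k j x)
        = -∫ x, φ x * pd k (fun y => pd j ψ y * vm v k j y) x := fun j k => by
      rw [(b2 j k).2, neg_neg]
    simp_rw [h1, h2]
    simp_rw [Finset.sum_neg_distrib]
    rw [e1]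
  have iB : ∀ j k, Integrable (fun x => |pd j ψ x| * (|vm v k j x| * (|L x k| + B x))) volume := by
    intro j k
    have hc : Continuous fun x => |pd j ψ x| * (|vm v k j x| * (|L x k| + B x)) :=
      (contDiff_pd hψ j).continuous.abs.mul ((hcv k j).abs.mul ((hcL k).abs.add hw.contB))
    refine hc.integrable_of_hasCompactSupport ?_
    exact ((hasCompactSupport_pd hψc j).comp_left (g := fun y : ℝ => |y|) abs_zero).mul_right
  have a1 : ∀ j k, |∫ x, fderiv ℝ φ x (Pi.single k 1) * (pd j ψ x * vm v k j x)|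
      ≤ ∫ x, |pd j ψ x| * (|vm v k j x| * (|L x k| + B x)) := by
    intro j k
    refine abs_integral_le_integral_abs.trans (integral_mono_ae (b2 j k).1.abs (iB j k) ?_)
    filter_upwards [hφl.ae_differentiableAt] with x hx
    by_cases hgx : pd j ψ x * vm v k j x = 0
    · rw [hgx, mul_zero, abs_zero, ← mul_assoc, ← abs_mul, hgx, abs_zero, zero_mul]
    · have hxO : x ∈ Open c d := t2 j k (subset_tsupport _ hgx)
      have h2 := (hdist x hxO hx).1 k
      rw [abs_mul, abs_mul]
      calc |fderiv ℝ φ x (Pi.single k 1)| * (|pd j ψ x| * |vm v k j x|)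
          ≤ (|L x k| + B x) * (|pd j ψ x| * |vm v k j x|) :=
            mul_le_mul_of_nonneg_right h2 (mul_nonneg (abs_nonneg _) (abs_nonneg _))
        _ = _ := by ring
  have a2 : |∑ j, ∑ k, ∫ x, fderiv ℝ φ x (Pi.single k 1) * (pd j ψ x * vm v k j x)|
      ≤ ∑ j, ∑ k, ∫ x, |pd j ψ x| * (|vm v k j x| * (|L x k| + B x)) := by
    refine (Finset.abs_sum_le_sum_abs _ _).trans (Finset.sum_le_sum fun j _ => ?_)
    exact (Finset.abs_sum_le_sum_abs _ _).trans (Finset.sum_le_sum fun k _ => a1 j k)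
  have iL : Integrable (fun x => ψ x * ∑ j, L x j * J x j) volume :=
    (hcψ.mul (continuous_finsetSum _ fun j _ =>
      (hcL j).mul (hcJ j))).integrable_of_hasCompactSupport hψc.mul_right
  have iA : Integrable (fun x => ψ x * (A x * nr (J x))) volume :=
    (hcψ.mul (hA.mul hcnr)).integrable_of_hasCompactSupport hψc.mul_right
  have a3 : ∫ x, (ψ x * fderiv ℝ φ x (J x) + ψ x * ∑ j, L x j * J x j)
      ≤ ∫ x, ψ x * (A x * nr (J x)) := by
    refine integral_mono_ae (iφ.add iL) iA ?_
    filter_upwards [hφl.ae_differentiableAt] with x hx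
    by_cases hgx : ψ x = 0
    · simp [hgx]
    · have hxO : x ∈ Open c d := hsub (subset_tsupport _ hgx)
      have h2 := (hdist x hxO hx).2
      rw [← mul_add]
      exact mul_le_mul_of_nonneg_left h2 (hψ0 x)
  rw [integral_add iφ iL, e3] at a3
  rw [abs_le] at a2
  linarith [a2.1, a2.2]

end field

end Pool.Agent.H41N.NL
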