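import Pool.Agent.H41N.NL.Defs

/-!
Closed polygons in a cube, and the potential of a vector field whose integrals over the closed
polygons are bounded by their costs.
-/

open MeasureTheory Set Filter Topology
open H459R3.NS

set_option autoImplicit false

namespace Pool.Agent.H41N.NL

variable {c : V} {d : ℝ} {L : V → V} {w : V → V → ℝ}

theorem endp_append (l₁ : List V) : ∀ (x : V) (l₂ : List V),
    endp x (l₁ ++ l₂) = endp (endp x l₁) l₂ := by
  induction l₁ with
  | nil => intro x l₂; rfl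
  | cons e l ih =>
    intro x l₂
    exact ih _ _

theorem circ_append (l₁ : List V) : ∀ (x : V) (l₂ : List V),
    circ L x (l₁ ++ l₂) = circ L x l₁ + circ L (endp x l₁) l₂ := by
  induction l₁ with
  | nil => intro x l₂; simp [circ, endp]
  | cons e l ih =>
    intro x l₂
    simp only [List.cons_append, circ, endp]
    rw [ih]
    ring

theorem cost_append (l₁ : List V) : ∀ (x : V) (l₂ : List V),
    cost w x (l₁ ++ l₂) = cost w x l₁ + cost w (endp x l₁) l₂ := by
  induction l₁ with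
  | nil => intro x l₂; simp [cost, endp]
  | cons e l ih =>
    intro x l₂
    simp only [List.cons_append, cost, endp]
    rw [ih]
    ring

theorem inside_start (l : List V) (x : V) (h : Inside c d x l) : ∀ i, |x i - c i| ≤ d / 2 := by
  cases l with
  | nil => exact h
  | cons e l => exact h.1

theorem inside_append (l₁ : List V) : ∀ (x : V) (l₂ : List V),
    Inside c d x (l₁ ++ l₂) ↔ Inside c d x l₁ ∧ Inside c d (endp x l₁) l₂ := by
  induction l₁ with
  | nil =>
    intro x l₂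
    exact ⟨fun h => ⟨inside_start _ _ h, h⟩, fun h => h.2⟩
  | cons e l ih =>
    intro x l₂
    simp only [List.cons_append, Inside, endp]
    rw [ih]
    exact ⟨fun h => ⟨⟨h.1, h.2.1⟩, h.2.2⟩, fun h => ⟨h.1.1, h.1.2, h.2⟩⟩

/-- the costs of the polygons from `c` to `x` -/
def costs (c : V) (d : ℝ) (L : V → V) (w : V → V → ℝ) (x : V) : Set ℝ :=
  {r | ∃ l : List V, Inside c d c l ∧ endp c l = x ∧ r = cost w c l - circ L c l}

/-- the potential -/
noncomputable def pot (c : V) (d : ℝ) (L : V → V) (w : V → V → ℝ) (x : V) : ℝ :=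
  sInf (costs c d L w x)

theorem center_mem (hd : 0 < d) : ∀ i, |c i - c i| ≤ d / 2 := by
  intro i
  rw [sub_self, abs_zero]
  linarith

theorem inside_road {x y : V} (hx : ∀ i, |x i - c i| ≤ d / 2) (hy : ∀ i, |y i - c i| ≤ d / 2) :
    Inside c d x [y - x] := by
  refine ⟨hx, ?_⟩
  rw [add_sub_cancel]
  exact hy

theorem endp_road (x y : V) : endp x [y - x] = y := by
  simp only [endp]
  rw [add_sub_cancel]

theorem costs_nonempty (hd : 0 < d) {x : V} (hx : ∀ i, |x i - c i| ≤ d / 2) :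
    (costs c d L w x).Nonempty :=
  ⟨_, [x - c], inside_road (center_mem hd) hx, endp_road c x, rfl⟩

theorem costs_bdd (hd : 0 < d) (h : LoopsIn c d L w) {x : V} (hx : ∀ i, |x i - c i| ≤ d / 2) :
    BddBelow (costs c d L w x) := by
  refine ⟨-(cost w x [c - x] - circ L x [c - x]), ?_⟩
  rintro r ⟨l, h1, h2, rfl⟩
  have h3 : Inside c d c (l ++ [c - x]) := by
    rw [inside_append]
    refine ⟨h1, ?_⟩
    rw [h2]
    exact inside_road hx (center_mem hd)
  have h4 : endp c (l ++ [c - x]) = c := by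
    rw [endp_append, h2, endp_road]
  have h5 := h c _ h3 h4
  rw [circ_append, cost_append, h2] at h5
  linarith

theorem pot_step (hd : 0 < d) (h : LoopsIn c d L w) {x e : V}
    (hx : ∀ i, |x i - c i| ≤ d / 2) (hy : ∀ i, |(x + e) i - c i| ≤ d / 2) :
    pot c d L w (x + e) ≤ pot c d L w x
      + ((∫ r in (0 : ℝ)..1, w (x + r • e) e) - ∫ r in (0 : ℝ)..1, ∑ i, L (x + r • e) i * e i) := by
  rw [← sub_le_iff_le_add]
  refine le_csInf (costs_nonempty hd hx) ?_
  rintro r ⟨l, h1, h2, rfl⟩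
  rw [sub_le_iff_le_add]
  refine csInf_le (costs_bdd hd h hy) ⟨l ++ [e], ?_, ?_, ?_⟩
  · rw [inside_append, h2]
    exact ⟨h1, hx, hy⟩
  · rw [endp_append, h2]
    rfl
  · rw [cost_append, circ_append, h2]
    simp only [cost, circ]
    ring

theorem mem_mid {x e : V} {r : ℝ} (hr : r ∈ Set.uIoc (0 : ℝ) 1)
    (hx : ∀ i, |x i - c i| ≤ d / 2) (hy : ∀ i, |(x + e) i - c i| ≤ d / 2) :
    ∀ i, |(x + r • e) i - c i| ≤ d / 2 := by
  intro i
  have h1 := hx i
  have h2 := hy i
  rw [Set.uIoc_of_le zero_le_one] at hr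
  simp only [Pi.add_apply, Pi.smul_apply, smul_eq_mul] at h2 ⊢
  rw [abs_le] at h1 h2 ⊢
  constructor <;> nlinarith [hr.1, hr.2, h1.1, h1.2, h2.1, h2.2]

theorem abs_le_nr (e : V) (i : Fin 3) : |e i| ≤ nr e := by
  unfold nr
  refine Real.abs_le_sqrt ?_
  exact Finset.single_le_sum (f := fun i => e i ^ 2) (fun _ _ => sq_nonneg _) (Finset.mem_univ i)

theorem nr_nonneg (e : V) : 0 ≤ nr e := Real.sqrt_nonneg _

theorem nr_neg (e : V) : nr (-e) = nr e := by
  unfold nr
  simp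

theorem nr_le_norm (e : V) : nr e ≤ 3 * ‖e‖ := by
  have h1 : ∀ i, |e i| ≤ ‖e‖ := fun i => norm_le_pi_norm e i
  have h2 : nr e ≤ Real.sqrt ((3 * ‖e‖) ^ 2) := by
    refine Real.sqrt_le_sqrt ?_
    rw [Fin.sum_univ_three]
    have h3 : ∀ i, e i ^ 2 ≤ ‖e‖ ^ 2 := fun i => by
      rw [← sq_abs (e i)]
      exact pow_le_pow_left₀ (abs_nonneg _) (h1 i) 2
    nlinarith [h3 0, h3 1, h3 2, sq_nonneg ‖e‖]
  rwa [Real.sqrt_sq (by positivity)] at h2

theorem pot_lip1 (hd : 0 < d) (h : LoopsIn c d L w) {K : ℝ} (hK : 0 ≤ K)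
    (hL : ∀ j y, (∀ i, |y i - c i| ≤ d / 2) → |L y j| ≤ K)
    (hw : ∀ y e, (∀ i, |y i - c i| ≤ d / 2) → |w y e| ≤ K * nr e) {x e : V}
    (hx : ∀ i, |x i - c i| ≤ d / 2) (hy : ∀ i, |(x + e) i - c i| ≤ d / 2) :
    pot c d L w (x + e) - pot c d L w x ≤ 4 * K * nr e := by
  have h1 := pot_step hd h hx hy
  have h2 : |∫ r in (0 : ℝ)..1, w (x + r • e) e| ≤ K * nr e * |(1 : ℝ) - 0| := by
    rw [← Real.norm_eq_abs]
    refine intervalIntegral.norm_integral_le_of_norm_le_const fun r hr => ?_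
    rw [Real.norm_eq_abs]
    exact hw _ _ (mem_mid hr hx hy)
  have h3 : |∫ r in (0 : ℝ)..1, ∑ i, L (x + r • e) i * e i| ≤ 3 * K * nr e * |(1 : ℝ) - 0| := by
    rw [← Real.norm_eq_abs]
    refine intervalIntegral.norm_integral_le_of_norm_le_const fun r hr => ?_
    rw [Real.norm_eq_abs]
    refine (Finset.abs_sum_le_sum_abs _ _).trans ?_
    have h4 : ∀ i ∈ Finset.univ, |L (x + r • e) i * e i| ≤ K * nr e := by
      intro i _
      rw [abs_mul]
      exact mul_le_mul (hL i _ (mem_mid hr hx hy)) (abs_le_nr e i) (abs_nonneg _) hK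
    refine (Finset.sum_le_sum h4).trans (le_of_eq ?_)
    simp
    ring
  rw [sub_zero, abs_one, mul_one] at h2 h3
  rw [abs_le] at h2 h3
  linarith [h2.2, h3.1]

theorem pot_lip (hd : 0 < d) (h : LoopsIn c d L w) {K : ℝ} (hK : 0 ≤ K)
    (hL : ∀ j y, (∀ i, |y i - c i| ≤ d / 2) → |L y j| ≤ K)
    (hw : ∀ y e, (∀ i, |y i - c i| ≤ d / 2) → |w y e| ≤ K * nr e) {x y : V}
    (hx : ∀ i, |x i - c i| ≤ d / 2) (hy : ∀ i, |y i - c i| ≤ d / 2) :
    |pot c d L w y - pot c d L w x| ≤ 12 * K * ‖y - x‖ := by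
  have e1 : x + (y - x) = y := add_sub_cancel _ _
  have e2 : y + (x - y) = x := add_sub_cancel _ _
  have h1 := pot_lip1 hd h hK hL hw (x := x) (e := y - x) hx (by rw [e1]; exact hy)
  have h2 := pot_lip1 hd h hK hL hw (x := y) (e := x - y) hy (by rw [e2]; exact hx)
  have e3 : nr (x - y) = nr (y - x) := by rw [← nr_neg, neg_sub]
  rw [e1] at h1
  rw [e2, e3] at h2
  have h3 := mul_le_mul_of_nonneg_left (nr_le_norm (y - x)) (by linarith : 0 ≤ 4 * K)
  rw [abs_le]
  constructor <;> linarith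

end Pool.Agent.H41N.NL
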