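import Pool.Agent.H41N.NL.Fin

/-!
A regularity criterion for the three-dimensional Navier-Stokes equations on the torus in terms of
the circulation around short closed curves which follow the lines of `curl ω`.

Let `ω = curl u` and let `b` be any velocity field, which may be chosen at each time. For closed
curves which are carried along by the velocity `b` the circulation of `u` changes at the rate
`∮ ((u - b) × ω) · dx` by inertia and at the rate `ν ∮ Δu · dx` by the viscosity (for `b = u` the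
first is `0`: this is Kelvin's theorem). The theorem: there is no blow-up at the time `T` if, at
each time `t < T`, the rate of change by inertia is, for the closed polygons in the cubes of a fixed
side `d`, at most

`∮ (f |∇u| + κ ν |Δu| + g) |dx| + K ∮ (|u| + |b|) |∇u| (|dx| - dx · J / |J|)`, `J = curl ω = -Δu`,

where `f` is in the class of Prodi and Serrin (`L^q L^p`, `2/q + 3/p = 1`), `∇b` in that of Beirao da
Veiga (`L^r L^s`, `2/r + 3/s = 2`), `b` in `L^4 L^2`, `g` in `L^2 L^2`, `κ < 1`, and `K` is any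
constant. The last integral is `0` for curves in the direction of `J`, so that only closed curves
which follow the lines of `J` count (as `K` is arbitrary, the cost of the other directions is any
multiple of the trivial bound of the left side), and only if inertia *increases* the circulation
(in the direction of `J`); the term `κ ν |Δu|` is the fraction `κ` of the effect of the viscosity.

* `b = 0`, `f = 2 |u|` is the Prodi-Serrin criterion, `b = u`, `f = 0` is that of Beirao da Veiga
  (in particular `∫ ‖∇u‖_∞ dt < ∞`).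
* The component of `u - b` in the direction of `ω` does not matter.
* The hypothesis holds with `f = g = 0` if `(u - b) × ω` is a gradient, for instance if `u - b` is
  parallel to `ω`, or if `b = 0` and `u(t)` is a stationary solution of Euler's equations.
* `g` can be used to remove the condition where the vorticity is bounded by a constant.

Proof. The production of enstrophy is `∫ (u × ω) · J`. By the hypothesis there is a potential `φ`
(the least cost of a polygon from the centre of the cube) in each cube of side `d` with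
`(∇φ + (u - b) × ω) · J ≤ (f |∇u| + κ ν |Δu| + g) |J|` almost everywhere, and `∇φ` has the
trivial bound. Since `J = curl ω`, the work of `∇φ` on `J` with a cut-off function is of lower
order; and `∫ (b × ω) · J` is an integral over `∇b` and quadratic terms in `∇u`.
-/

open MeasureTheory Set H459R3.NS Pool.Agent.H41N.NL
open scoped ENNReal

set_option autoImplicit false

/-- Let `3 < p ≤ ∞`, `3/p + 2/q = 1`, `3/2 < s ≤ ∞`, `3/s + 2/r = 2`, `ν > 0`, `0 ≤ κ < 1`, `K ≥ 0`
and `d > 0`. There is a constant `C` such that every smooth `1`-periodic solution `(u, P)` of the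
Navier-Stokes equations with viscosity `ν` on `[0, T) × ℝ³` satisfies
`‖∇u(t)‖² + 1 ≤ (‖∇u(0)‖² + 1) exp (C (T (1 + ‖u(0)‖⁴) + ∫ (β^q + γ^r + η⁴ + ρ²)))` and is bounded,
provided that for every `t ∈ (0, T)` there are a smooth periodic vector field `b` and continuous
periodic functions `f, g ≥ 0` with `‖f‖_p ≤ β(t)`, `‖∂_i b_j‖_s ≤ γ(t)`, `‖b‖₂ ≤ η(t)`,
`‖g‖₂ ≤ ρ(t)`, such that for every closed polygon in a cube with side `d`

`∮ ((u - b) × curl u) · dx ≤ ∮ (f |∇u| + κ ν |Δu| + g) |dx| + K ∮ (|u| + |b|) |∇u| (|dx| - dx · J / |J|)`,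

where `J = -Δu`. -/
theorem Pool.Agent.H41N.NL.Res.result
    {p s : ℝ≥0∞} (hp : 3 < p) (hs : 3 / 2 < s) {q r : ℝ}
    (hpq : 3 * (p⁻¹).toReal + 2 / q = 1) (hsr : 3 * (s⁻¹).toReal + 2 / r = 2) {ν κ K d : ℝ}
    (hν : 0 < ν) (hκ0 : 0 ≤ κ) (hκ : κ < 1) (hK : 0 ≤ K) (hd : 0 < d) :
    ∃ C : ℝ, 0 ≤ C ∧ ∀ (T : ℝ) (u : ℝ → V → V) (P : ℝ → V → ℝ) (β γ η ρ : ℝ → ℝ),
      IsSol ν T u P → (∀ t ∈ Ioo 0 T, 0 ≤ β t ∧ 0 ≤ γ t ∧ 0 ≤ η t ∧ 0 ≤ ρ t) →
      IntegrableOn (fun t => β t ^ q) (Ioo 0 T) → IntegrableOn (fun t => γ t ^ r) (Ioo 0 T) →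
      IntegrableOn (fun t => η t ^ 4) (Ioo 0 T) → IntegrableOn (fun t => ρ t ^ 2) (Ioo 0 T) →
      (∀ t ∈ Ioo 0 T, ∃ (b : V → V) (f g : V → ℝ), SPV b ∧
        (Continuous f ∧ Per f ∧ ∀ x, 0 ≤ f x) ∧ (Continuous g ∧ Per g ∧ ∀ x, 0 ≤ g x) ∧
        eLpNorm f p (volume.restrict cube) ≤ ENNReal.ofReal (β t) ∧
        (∀ i j, eLpNorm (pd i (fun y => b y j)) s (volume.restrict cube)
          ≤ ENNReal.ofReal (γ t)) ∧
        energy b ≤ η t ^ 2 ∧ ∫ x in cube, g x ^ 2 ≤ ρ t ^ 2 ∧
        Loops d (slip (u t) b) (weight K κ ν f g (u t) b)) →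
      (∀ t ∈ Ico 0 T, enstrophy (u t) + 1 ≤ (enstrophy (u 0) + 1) * Real.exp
        (C * (T * (1 + energy (u 0) ^ 2) + (∫ τ in Ioo 0 T, β τ ^ q) + (∫ τ in Ioo 0 T, γ τ ^ r)
          + (∫ τ in Ioo 0 T, η τ ^ 4) + ∫ τ in Ioo 0 T, ρ τ ^ 2))) ∧
      ∃ M, ∀ t ∈ Ico 0 T, ∀ x i, |u t x i| ≤ M :=
  criterion hp hs hpq hsr hν hκ0 hκ hK hd
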